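import Pool.Agent.Helper32.TN.StA

/-!
# T9, block 1: the metric `dd`
-/

set_option autoImplicit false

namespace Pool.TN

open Pool.TC Pool.TCM Finset
open scoped Classical

private theorem met_cnb_card {V : Type} [Fintype V] (G : SimpleGraph V) (D : ℕ)
    (h : ∀ u, (nb G u).card = D) (u : V) : (cnb G u).card = D + 1 := by
  unfold cnb
  rw [Finset.card_insert_of_notMem, h u]
  intro hu
  simp [nb] at hu

private theorem met_two {V : Type} [Fintype V] (G : SimpleGraph V) (D : ℕ)
    (h : ∀ u, (nb G u).card = D) (u x : V) :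
    (cnb G u ∩ cnb G x).card + dd G u x = D + 1 := by
  unfold dd
  rw [Finset.card_inter_add_card_sdiff, met_cnb_card G D h u]

theorem thm_Met : St_Met := by
  intro V _ G D h
  refine ⟨?_, met_two G D h, ?_, ?_⟩
  · intro u x
    have h1 := met_two G D h u x
    have h2 := met_two G D h x u
    rw [Finset.inter_comm] at h2
    omega
  · intro u x y
    unfold dd
    refine le_trans (Finset.card_le_card ?_) (Finset.card_union_le _ _)
    intro z hz
    rw [Finset.mem_sdiff] at hz
    rw [Finset.mem_union, Finset.mem_sdiff, Finset.mem_sdiff]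
    by_cases hzx : z ∈ cnb G x
    · exact Or.inr ⟨hzx, hz.2⟩
    · exact Or.inl ⟨hz.1, hzx⟩
  · intro u
    unfold npr
    have hfib : ((nb G u ×ˢ nb G u).filter (fun p => p.1 ≠ p.2 ∧ ¬ G.Adj p.1 p.2)).card =
        ∑ x ∈ nb G u, (((nb G u ×ˢ nb G u).filter
          (fun p => p.1 ≠ p.2 ∧ ¬ G.Adj p.1 p.2)).filter (fun p => p.1 = x)).card := by
      apply Finset.card_eq_sum_card_fiberwise
      intro p hp
      have hp' := Finset.mem_coe.1 hp
      rw [Finset.mem_filter, Finset.mem_product] at hp'
      exact Finset.mem_coe.2 hp'.1.1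
    rw [hfib]
    apply Finset.sum_congr rfl
    intro x hx
    unfold dd
    have hxa : G.Adj u x := by
      simpa [nb] using hx
    apply Finset.card_bij (fun y _ => (x, y))
    · intro y hy
      rw [Finset.mem_sdiff] at hy
      have hy1 : y = u ∨ G.Adj u y := by
        simpa [cnb, nb] using hy.1
      have hy2 : ¬ (y = x ∨ G.Adj x y) := by
        simpa [cnb, nb] using hy.2
      rw [Finset.mem_filter, Finset.mem_filter, Finset.mem_product]
      have hyu : y ≠ u := by
        rintro rfl
        exact hy2 (Or.inr hxa.symm)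
      have hya : G.Adj u y := hy1.resolve_left hyu
      refine ⟨⟨⟨hx, ?_⟩, ?_, ?_⟩, rfl⟩
      · simpa [nb] using hya
      · intro he
        exact hy2 (Or.inl he.symm)
      · intro he
        exact hy2 (Or.inr he)
    · intro y _ z _ he
      exact (Prod.mk.inj he).2
    · rintro ⟨a, b⟩ hab
      rw [Finset.mem_filter, Finset.mem_filter, Finset.mem_product] at hab
      obtain ⟨⟨⟨_, hb⟩, hne, hna⟩, rfl⟩ := hab
      refine ⟨b, ?_, rfl⟩
      rw [Finset.mem_sdiff]
      constructor
      · exact Finset.mem_insert_of_mem hb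
      · intro hcon
        have hcon' : b = a ∨ G.Adj a b := by
          simpa [cnb, nb] using hcon
        rcases hcon' with h1 | h1
        · exact hne h1.symm
        · exact hna h1

end Pool.TN
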