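import Pool.Agent.Helper32.TN.StA

/-!
# T9, assembly of stage 3a (helper34)
-/

set_option autoImplicit false

namespace Pool.TN

open Pool.TC Pool.TCM Finset
open scoped Classical

theorem T3a_numb {D B : ℕ} {Lam : ℝ} (h : Numb D B Lam) : 1000 * B ≤ D := by
  have h1 := h.DB
  have h2 := h.L1
  have hB : (0 : ℝ) ≤ (B : ℝ) := Nat.cast_nonneg B
  have h3 : (1000 : ℝ) * (B : ℝ) ≤ (D : ℝ) := by
    have h4 : (B : ℝ) ≤ Lam * B := by nlinarith
    nlinarith
  exact_mod_cast h3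

theorem T3a_mem_Kr {V : Type} [Fintype V] {K : V → Option V} {R : V → Prop} {i v : V} :
    v ∈ Kr K R i ↔ K v = some i ∧ R v := by
  unfold Kr
  rw [Finset.mem_filter]
  exact ⟨fun h => h.2, fun h => ⟨Finset.mem_univ _, h⟩⟩

theorem T3a_ld {V κ : Type} [Fintype V] [Fintype κ] (E : EC κ V) (A : V → Prop) (c : V → κ)
    (v : V) (h : ∀ u u', A u → A u' → E.N (c u) u = v → E.N (c u') u' = v → u = u') :
    ld E A c v ≤ 1 := by
  unfold ld
  rw [Finset.card_le_one]
  intro u hu u' hu'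
  rw [Finset.mem_filter] at hu hu'
  exact h u u' hu.2.1 hu'.2.1 hu.2.2 hu'.2.2

theorem T3a_card {V κ : Type} [Fintype V] [Fintype κ] (K : V → Option V) (π : V → V)
    (c : V → κ) (i : V) (h1 : ∀ w, π (π w) = w)
    (h2 : ∀ w, π w ≠ w → K (π w) = K w) (g2 : ∀ w, c (π w) = c w)
    (g4 : ∀ w w', π w ≠ w → π w' ≠ w' → K w = K w' → c w = c w' → w' = w ∨ w' = π w) :
    (Kr K (fun v => π v ≠ v) i).card =
      2 * ((Kr K (fun v => π v ≠ v) i).image c).card := by
  rw [Finset.card_eq_sum_card_image c (Kr K (fun v => π v ≠ v) i)]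
  rw [Finset.sum_const_nat (m := 2), mul_comm]
  intro b hb
  obtain ⟨w, hw, rfl⟩ := Finset.mem_image.1 hb
  have hw' : K w = some i ∧ π w ≠ w := (T3a_mem_Kr (R := fun v => π v ≠ v)).1 hw
  have h3 : (Kr K (fun v => π v ≠ v) i).filter (fun x => c x = c w) = {w, π w} := by
    ext x
    rw [Finset.mem_filter, T3a_mem_Kr, Finset.mem_insert, Finset.mem_singleton]
    constructor
    · rintro ⟨⟨hx1, hx2⟩, hx3⟩
      exact g4 w x hw'.2 hx2 (hw'.1.trans hx1.symm) hx3.symm
    · rintro (rfl | rfl)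
      · exact ⟨hw', rfl⟩
      · refine ⟨⟨(h2 w hw'.2).trans hw'.1, ?_⟩, g2 w⟩
        rw [h1]
        exact fun h => hw'.2 h.symm
  rw [h3, Finset.card_pair (fun h => hw'.2 h.symm)]

theorem T3a_Av {V κ : Type} [Fintype V] [Fintype κ] (K : V → Option V) (pr : V → Prop)
    (c : V → κ) (i : V) :
    (Av K pr c i).card + ((Kr K pr i).image c).card = Fintype.card κ := by
  have h1 : Av K pr c i = ((Kr K pr i).image c)ᶜ := by
    ext a
    unfold Av
    rw [Finset.mem_filter, Finset.mem_compl, Finset.mem_image]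
    constructor
    · rintro ⟨-, h⟩ ⟨v, hv, hva⟩
      obtain ⟨hv1, hv2⟩ := T3a_mem_Kr.1 hv
      exact h v hv1 hv2 hva
    · intro h
      exact ⟨Finset.mem_univ _, fun v hv1 hv2 hva => h ⟨v, T3a_mem_Kr.2 ⟨hv1, hv2⟩, hva⟩⟩
  rw [h1, add_comm]
  exact Finset.card_add_card_compl _

theorem thm_T3a (hPrs : St_Prs) (hPco : St_Pco) : St_T3a := by
  intro V κ _ _ G E K D B Lam Q c0 hS hN hQ hc0
  have hDB := T3a_numb hN
  have hB1 := hN.B1
  obtain ⟨π, μ, lam, h1, h2, h3, h4, h5, h6⟩ := hPrs V κ G E K D B hS hB1 (by omega)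
  obtain ⟨c, g1, g2, g3, g4, g5, g6⟩ := hPco V κ G E K D B Q c0 π hS hB1 hDB hQ hc0 h1 h2
    (fun i => by
      rw [h3 i]
      have := h4 i
      omega)
  refine ⟨fun v => π v ≠ v, c, lam, g1, ?_⟩
  exact {
    prK := fun v hv => (h2 v hv).1
    prp := g5
    prQ := fun v hv => (g3 v hv).1
    prR := fun v hv => (g3 v hv).2
    prL := fun v => T3a_ld E _ c v fun u u' hu hu' h h' => g6 u u' hu hu' (h.trans h'.symm)
    prC := by
      intro i
      have h7 := h3 i
      have h8 := h4 i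
      omega
    cnt := by
      intro i hi
      have h7 := h5 i hi
      have h8 := T3a_Av K (fun v => π v ≠ v) c i
      have h9 := T3a_card K π c i h1 (fun w hw => (h2 w hw).2.1) g2 g4
      have h10 := h3 i
      rw [hS.col] at h8
      omega
    sum := h6 }

end Pool.TN
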