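import Pool.Agent.Helper32.TN.StA

/-!
# T9, block 3a, module Mch: disjoint pairs (helper55)
-/

set_option autoImplicit false

namespace Pool.TN

open Pool.TC Pool.TCM Finset
open scoped Classical

theorem Mch_count {V : Type} (Ks : Finset V) (rel : V → V → Prop) (B μ : ℕ) (m : V → Prop) [DecidablePred m]
    (hsym : ∀ w x, rel w x → rel x w)
    (hdeg : ∀ w ∈ Ks, (Ks.filter (fun x => rel w x)).card ≤ B)
    (hm : (Ks.filter m).card = 2 * μ)
    (hcov : ∀ w ∈ Ks, ∀ x ∈ Ks, rel w x → m w ∨ m x) :
    ∑ w ∈ Ks, (Ks.filter (fun x => rel w x)).card ≤ 4 * B * μ := by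
  have h1 : ∀ w ∈ Ks, (Ks.filter (fun x => rel w x)).card ≤
      (if m w then B else 0) + ∑ x ∈ Ks, if m x then (if rel x w then 1 else 0) else 0 := by
    intro w hw
    by_cases hmw : m w
    · rw [if_pos hmw]
      exact (hdeg w hw).trans (Nat.le_add_right _ _)
    · rw [if_neg hmw, zero_add, Finset.card_filter]
      refine Finset.sum_le_sum fun x hx => ?_
      by_cases hr : rel w x
      · have hmx : m x := (hcov w hw x hx hr).resolve_left hmw
        rw [if_pos hr, if_pos hmx, if_pos (hsym w x hr)]
      · rw [if_neg hr]
        exact Nat.zero_le _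
  have h2 : ∑ w ∈ Ks, (if m w then B else 0) = 2 * μ * B := by
    rw [← Finset.sum_filter, Finset.sum_const, hm, smul_eq_mul]
  have h3 : ∑ w ∈ Ks, ∑ x ∈ Ks, (if m x then (if rel x w then 1 else 0) else 0) ≤ 2 * μ * B := by
    rw [Finset.sum_comm]
    calc ∑ x ∈ Ks, ∑ w ∈ Ks, (if m x then (if rel x w then 1 else 0) else 0)
        ≤ ∑ x ∈ Ks, (if m x then B else 0) := by
          refine Finset.sum_le_sum fun x hx => ?_
          by_cases hmx : m x
          · simp only [if_pos hmx]
            rw [← Finset.card_filter]
            exact hdeg x hx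
          · simp only [if_neg hmx, Finset.sum_const_zero, le_refl]
      _ = 2 * μ * B := h2
  calc ∑ w ∈ Ks, (Ks.filter (fun x => rel w x)).card
      ≤ ∑ w ∈ Ks, ((if m w then B else 0) +
          ∑ x ∈ Ks, if m x then (if rel x w then 1 else 0) else 0) := Finset.sum_le_sum h1
    _ = 2 * μ * B + ∑ w ∈ Ks, ∑ x ∈ Ks, (if m x then (if rel x w then 1 else 0) else 0) := by
        rw [Finset.sum_add_distrib, h2]
    _ ≤ 2 * μ * B + 2 * μ * B := Nat.add_le_add_left h3 _
    _ = 4 * B * μ := by ring

/-- disjoint pairs -/
theorem thm_Mch : St_Mch := by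
  intro V _ Ks rel B μ hsym hirr hdeg
  induction μ with
  | zero =>
    intro _
    refine ⟨id, fun w => rfl, fun w hw => absurd rfl hw, ?_⟩
    rw [Nat.mul_zero, Finset.card_eq_zero, Finset.filter_eq_empty_iff]
    intro w _ hw
    exact hw rfl
  | succ μ ih =>
    intro hA
    have hA' : 4 * B * μ < ∑ w ∈ Ks, (Ks.filter (fun x => rel w x)).card := by
      rcases hA with h | h
      · omega
      · rw [Nat.add_sub_cancel] at h
        exact h
    obtain ⟨π, hπ1, hπ2, hπ3⟩ := ih (by
      rcases Nat.eq_zero_or_pos μ with h0 | h0
      · exact Or.inl h0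
      · right
        exact lt_of_le_of_lt (Nat.mul_le_mul_left _ (Nat.sub_le _ _)) hA')
    have hex : ∃ w ∈ Ks, ∃ x ∈ Ks, rel w x ∧ π w = w ∧ π x = x := by
      by_contra hcon
      have hc := Mch_count Ks rel B μ (fun w => π w ≠ w) hsym hdeg hπ3 (by
        intro w hw x hx hr
        by_contra h
        have h' : π w = w ∧ π x = x := by
          constructor
          · by_contra h1
            exact h (Or.inl h1)
          · by_contra h1
            exact h (Or.inr h1)
        exact hcon ⟨w, hw, x, hx, hr, h'.1, h'.2⟩)
      omega
    obtain ⟨w, hw, x, hx, hr, hwf, hxf⟩ := hex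
    have hwx : w ≠ x := by
      intro h
      rw [h] at hr
      exact hirr x hr
    have hπw : ∀ v, v ≠ w → π v ≠ w := by
      intro v hv h
      apply hv
      have := hπ1 v
      rw [h, hwf] at this
      exact this.symm
    have hπx : ∀ v, v ≠ x → π v ≠ x := by
      intro v hv h
      apply hv
      have := hπ1 v
      rw [h, hxf] at this
      exact this.symm
    obtain ⟨ρ, hρw, hρx, hρ⟩ : ∃ ρ : V → V, ρ w = x ∧ ρ x = w ∧
        ∀ v, v ≠ w → v ≠ x → ρ v = π v := by
      refine ⟨fun v => if v = w then x else if v = x then w else π v, ?_, ?_, ?_⟩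
      · exact if_pos rfl
      · show (if x = w then x else if x = x then w else π x) = w
        rw [if_neg hwx.symm, if_pos rfl]
      · intro v h1 h2
        show (if v = w then x else if v = x then w else π v) = π v
        rw [if_neg h1, if_neg h2]
    refine ⟨ρ, ?_, ?_, ?_⟩
    · intro v
      by_cases h1 : v = w
      · rw [h1, hρw, hρx]
      · by_cases h2 : v = x
        · rw [h2, hρx, hρw]
        · rw [hρ v h1 h2, hρ (π v) (hπw v h1) (hπx v h2), hπ1]
    · intro v hv
      by_cases h1 : v = w
      · rw [h1, hρw]
        exact ⟨hw, hx, hr⟩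
      · by_cases h2 : v = x
        · rw [h2, hρx]
          exact ⟨hx, hw, hsym w x hr⟩
        · rw [hρ v h1 h2] at hv ⊢
          exact hπ2 v hv
    · have hset : Ks.filter (fun v => ρ v ≠ v) = insert w (insert x (Ks.filter (fun v => π v ≠ v))) := by
        ext v
        rw [Finset.mem_insert, Finset.mem_insert, Finset.mem_filter, Finset.mem_filter]
        by_cases h1 : v = w
        · constructor
          · intro _
            exact Or.inl h1
          · intro _
            rw [h1]
            refine ⟨hw, ?_⟩
            rw [hρw]
            exact hwx.symm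
        · by_cases h2 : v = x
          · constructor
            · intro _
              exact Or.inr (Or.inl h2)
            · intro _
              rw [h2]
              refine ⟨hx, ?_⟩
              rw [hρx]
              exact hwx
          · rw [hρ v h1 h2]
            constructor
            · intro h
              exact Or.inr (Or.inr h)
            · rintro (h | h | h)
              · exact absurd h h1
              · exact absurd h h2
              · exact h
      rw [hset, Finset.card_insert_of_notMem, Finset.card_insert_of_notMem, hπ3]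
      · ring
      · rw [Finset.mem_filter]
        rintro ⟨-, h⟩
        exact h hxf
      · rw [Finset.mem_insert, Finset.mem_filter]
        rintro (h | ⟨-, h⟩)
        · exact hwx h
        · exact h hwf

end Pool.TN
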