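import Pool.Agent.Helper32.TN.StA
import Pool.Agent.Helper45.Vu.IT

/-!
# T9, block 1: the colouring of the pairs (Pco)

Statement and proof: `St_Pco` in `StA.lean`. Instead of unordered pairs we use representatives: with
an injective `e : V → ℕ` the representative of `{v, π v}` is the one with the smaller value.
-/

set_option autoImplicit false

namespace Pool.TN

open Pool.TC Pool.TCM Finset
open scoped Classical

section

variable {V κ : Type}

/-- the representative of the pair of `v` -/
noncomputable def Pco_rep (e : V → ℕ) (π : V → V) (v : V) : V := if e v < e (π v) then v else π v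

theorem Pco_rep_pi {e : V → ℕ} (he : Function.Injective e) {π : V → V} (hπ : ∀ w, π (π w) = w)
    (v : V) : Pco_rep e π (π v) = Pco_rep e π v := by
  unfold Pco_rep
  rw [hπ]
  by_cases h : e v < e (π v)
  · rw [if_pos h, if_neg (by omega)]
  · rw [if_neg h]
    by_cases h' : e (π v) < e v
    · rw [if_pos h']
    · rw [if_neg h']
      exact he (by omega)

theorem Pco_rep_mem {e : V → ℕ} (he : Function.Injective e) {π : V → V} (hπ : ∀ w, π (π w) = w)
    {v : V} (hv : π v ≠ v) : π (Pco_rep e π v) ≠ Pco_rep e π v ∧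
      e (Pco_rep e π v) < e (π (Pco_rep e π v)) := by
  unfold Pco_rep
  by_cases h : e v < e (π v)
  · rw [if_pos h]
    exact ⟨hv, h⟩
  · rw [if_neg h, hπ]
    refine ⟨fun h' => hv h'.symm, ?_⟩
    have : e (π v) ≠ e v := fun h' => hv (he h')
    omega

theorem Pco_rep_or {e : V → ℕ} {π : V → V} (hπ : ∀ w, π (π w) = w) (v : V) :
    v = Pco_rep e π v ∨ v = π (Pco_rep e π v) := by
  unfold Pco_rep
  by_cases h : e v < e (π v)
  · rw [if_pos h]
    exact Or.inl rfl
  · rw [if_neg h, hπ]
    exact Or.inr rfl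

theorem Pco_rep_self {e : V → ℕ} {π : V → V} {v : V} (h : e v < e (π v)) :
    Pco_rep e π v = v := by
  unfold Pco_rep
  rw [if_pos h]

theorem Pco_rep_eq {e : V → ℕ} {π : V → V} (hπ : ∀ w, π (π w) = w) {w w' : V}
    (h : Pco_rep e π w = Pco_rep e π w') : w' = w ∨ w' = π w := by
  rcases Pco_rep_or (e := e) hπ w with h1 | h1
  · rcases Pco_rep_or (e := e) hπ w' with h2 | h2
    · left
      rw [h1, h2, h]
    · right
      rw [← h, ← h1] at h2
      exact h2
  · rcases Pco_rep_or (e := e) hπ w' with h2 | h2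
    · right
      rw [h1, hπ, h2, h]
    · left
      rw [h1, h2, h]

theorem Pco_mem_Kr [Fintype V] {K : V → Option V} {R : V → Prop} {i v : V} :
    v ∈ Kr K R i ↔ K v = some i ∧ R v := by
  unfold Kr
  rw [mem_filter]
  exact ⟨fun h => h.2, fun h => ⟨mem_univ _, h⟩⟩

/-- the conflict graph on the pairs (representative, colour) -/
def Pco_G (G : SimpleGraph V) (E : EC κ V) (K : V → Option V) (π : V → V) :
    SimpleGraph (V × κ) where
  Adj p q := p.1 ≠ q.1 ∧ ∃ x x', (x = p.1 ∨ x = π p.1) ∧ (x' = q.1 ∨ x' = π q.1) ∧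
    ((p.2 = q.2 ∧ K x = K x') ∨ E.N p.2 x = E.N q.2 x' ∨ (p.2 = q.2 ∧ G.Adj x x'))
  symm := ⟨by
    rintro p q ⟨h1, x, x', hx, hx', h⟩
    refine ⟨h1.symm, x', x, hx', hx, ?_⟩
    rcases h with h | h | h
    · exact Or.inl ⟨h.1.symm, h.2.symm⟩
    · exact Or.inr (Or.inl h.symm)
    · exact Or.inr (Or.inr ⟨h.1.symm, h.2.symm⟩)⟩
  loopless := ⟨fun _ h => h.1 rfl⟩

/-- the good colours -/
def Pco_good (G : SimpleGraph V) (E : EC κ V) (K : V → Option V) (Q : Finset κ) (c0 : V → κ)
    (w : V) (a : κ) : Prop :=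
  a ∉ Q ∧ K (E.N a w) = K w ∧ ∀ x, G.Adj w x → K x = none → c0 x ≠ a

/-- colours which are not good for `w` -/
theorem Pco_bad [Fintype V] [Fintype κ] {G : SimpleGraph V} {E : EC κ V} {K : V → Option V}
    {D B : ℕ} (hS : Sett G E K D B) (c0 : V → κ) {w : V} (hw : K w ≠ none) :
    (univ.filter (fun a => ¬ (K (E.N a w) = K w ∧ ∀ x, G.Adj w x → K x = none → c0 x ≠ a))).card ≤
      2 * B := by
  have h1 : (univ.filter (fun a : κ => K (E.N a w) ≠ K w)).card ≤ B := by
    refine le_trans ?_ (hS.out w hw)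
    unfold oo
    refine card_le_card_of_injOn (fun a => E.N a w) ?_ ?_
    · intro a ha
      have ha' := (mem_filter.1 (mem_coe.1 ha)).2
      rw [mem_coe, mem_filter]
      refine ⟨?_, ha'⟩
      unfold nb
      rw [mem_filter]
      refine ⟨mem_univ _, hS.adj a w (fun h => ha' ?_)⟩
      rw [h]
    · intro a _ b _ h
      exact hS.inj w a b h
  have h2 : (((nb G w).filter (fun x => K x = none)).image c0).card ≤ B := by
    refine card_image_le.trans (le_trans (card_le_card ?_) (hS.out w hw))
    intro x hx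
    obtain ⟨hx1, hx2⟩ := mem_filter.1 hx
    rw [mem_filter]
    refine ⟨hx1, ?_⟩
    rw [hx2]
    exact hw.symm
  have h3 : (univ.filter (fun a : κ => ¬ (K (E.N a w) = K w ∧
      ∀ x, G.Adj w x → K x = none → c0 x ≠ a))) ⊆
      (univ.filter (fun a : κ => K (E.N a w) ≠ K w)) ∪
        ((nb G w).filter (fun x => K x = none)).image c0 := by
    intro a ha
    have ha' := (mem_filter.1 ha).2
    rw [mem_union]
    by_cases h : K (E.N a w) = K w
    · right
      push Not at ha'
      obtain ⟨x, hx1, hx2, hx3⟩ := ha' h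
      refine mem_image.2 ⟨x, ?_, hx3⟩
      rw [mem_filter]
      refine ⟨?_, hx2⟩
      unfold nb
      rw [mem_filter]
      exact ⟨mem_univ _, hx1⟩
    · left
      rw [mem_filter]
      exact ⟨mem_univ _, h⟩
  have h4 := (card_le_card h3).trans (card_union_le _ _)
  omega

/-- the size of the parts -/
theorem Pco_part [Fintype V] [Fintype κ] {G : SimpleGraph V} {E : EC κ V} {K : V → Option V}
    {D B : ℕ} (hS : Sett G E K D B) (Q : Finset κ) (c0 : V → κ) {w w' : V} (hw : K w ≠ none)
    (hw' : K w' ≠ none) :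
    D + 1 ≤ (univ.filter (fun a => Pco_good G E K Q c0 w a ∧ Pco_good G E K Q c0 w' a)).card +
      Q.card + 4 * B := by
  have h1 := Pco_bad hS c0 hw
  have h2 := Pco_bad hS c0 hw'
  have h3 : (univ : Finset κ) ⊆
      ((univ.filter (fun a => Pco_good G E K Q c0 w a ∧ Pco_good G E K Q c0 w' a)) ∪ Q) ∪
      ((univ.filter (fun a => ¬ (K (E.N a w) = K w ∧ ∀ x, G.Adj w x → K x = none → c0 x ≠ a))) ∪
      (univ.filter (fun a => ¬ (K (E.N a w') = K w' ∧
        ∀ x, G.Adj w' x → K x = none → c0 x ≠ a)))) := by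
    intro a _
    rw [mem_union, mem_union, mem_union, mem_filter, mem_filter, mem_filter]
    by_cases h4 : a ∈ Q
    · exact Or.inl (Or.inr h4)
    by_cases h5 : (K (E.N a w) = K w ∧ ∀ x, G.Adj w x → K x = none → c0 x ≠ a)
    · by_cases h6 : (K (E.N a w') = K w' ∧ ∀ x, G.Adj w' x → K x = none → c0 x ≠ a)
      · exact Or.inl (Or.inl ⟨mem_univ _, ⟨h4, h5⟩, ⟨h4, h6⟩⟩)
      · exact Or.inr (Or.inr ⟨mem_univ _, h6⟩)
    · exact Or.inr (Or.inl ⟨mem_univ _, h5⟩)
  have h4 := card_le_card h3
  rw [card_univ, hS.col] at h4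
  have h5 := card_union_le
    ((univ.filter (fun a => Pco_good G E K Q c0 w a ∧ Pco_good G E K Q c0 w' a)) ∪ Q)
      ((univ.filter (fun a => ¬ (K (E.N a w) = K w ∧ ∀ x, G.Adj w x → K x = none → c0 x ≠ a))) ∪
      (univ.filter (fun a => ¬ (K (E.N a w') = K w' ∧
        ∀ x, G.Adj w' x → K x = none → c0 x ≠ a))))
  have h6 := card_union_le
    (univ.filter (fun a => Pco_good G E K Q c0 w a ∧ Pco_good G E K Q c0 w' a)) Q
  have h7 := card_union_le
    (univ.filter (fun a => ¬ (K (E.N a w) = K w ∧ ∀ x, G.Adj w x → K x = none → c0 x ≠ a)))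
      (univ.filter (fun a => ¬ (K (E.N a w') = K w' ∧
        ∀ x, G.Adj w' x → K x = none → c0 x ≠ a)))
  omega

/-- the neighbours of a vertex of the conflict graph -/
theorem Pco_deg [Fintype V] [Fintype κ] {G : SimpleGraph V} {E : EC κ V} {K : V → Option V}
    {D B : ℕ} (hS : Sett G E K D B) (Q : Finset κ) (c0 : V → κ) {π : V → V} {e : V → ℕ}
    (he : Function.Injective e) (hπ : ∀ w, π (π w) = w)
    (hπK : ∀ w, π w ≠ w → K w ≠ none ∧ K (π w) = K w ∧ ¬ G.Adj w (π w))
    (hM : ∀ i, (Kr K (fun v => π v ≠ v) i).card ≤ 8 * B) {w : V} (hw : π w ≠ w) {a : κ}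
    (ha : Pco_good G E K Q c0 w a) (ha' : Pco_good G E K Q c0 (π w) a) :
    ∃ T : Finset (V × κ), T.card ≤ 26 * B ∧ ∀ w' a', π w' ≠ w' → e w' < e (π w') →
      Pco_good G E K Q c0 w' a' → Pco_good G E K Q c0 (π w') a' →
      (Pco_G G E K π).Adj (w, a) (w', a') → (w', a') ∈ T := by
  obtain ⟨i, hi⟩ := Option.ne_none_iff_exists'.1 (hπK w hw).1
  have hKπ : ∀ x, (x = w ∨ x = π w) → K x = some i := by
    rintro x (rfl | rfl)
    · exact hi
    · rw [(hπK w hw).2.1, hi]
  have hga : ∀ x, (x = w ∨ x = π w) → Pco_good G E K Q c0 x a := by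
    rintro x (rfl | rfl)
    · exact ha
    · exact ha'
  -- the colour determined by two vertices
  obtain ⟨col, hcol⟩ : ∃ col : V → V → κ, ∀ x x' a', E.N a x = E.N a' x' → col x x' = a' := by
    refine ⟨fun x x' => if h : ∃ b, E.N a x = E.N b x' then h.choose else a, ?_⟩
    intro x x' a' h
    beta_reduce
    rw [dif_pos ⟨a', h⟩]
    have h2 := (⟨a', h⟩ : ∃ b, E.N a x = E.N b x').choose_spec
    exact hS.inj x' _ _ (h2.symm.trans h)
  set M : Finset V := Kr K (fun v => π v ≠ v) i with hMdef
  have hMc : M.card ≤ 8 * B := hM i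
  refine ⟨M.image (fun w' => (w', a)) ∪
    ((({w, π w} : Finset V) ×ˢ M).image (fun p => (Pco_rep e π p.2, col p.1 p.2)) ∪
    ((({w} : Finset V).biUnion (fun x => ((nb G x).filter (fun v => K v ≠ K x)).image
      (fun x' => (Pco_rep e π x', a)))) ∪
    (({π w} : Finset V).biUnion (fun x => ((nb G x).filter (fun v => K v ≠ K x)).image
      (fun x' => (Pco_rep e π x', a)))))), ?_, ?_⟩
  · have h1 : (M.image (fun w' => (w', a))).card ≤ 8 * B := card_image_le.trans hMc
    have h2 : ((({w, π w} : Finset V) ×ˢ M).image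
        (fun p => (Pco_rep e π p.2, col p.1 p.2))).card ≤ 16 * B := by
      refine card_image_le.trans ?_
      rw [card_product]
      have h3 : ({w, π w} : Finset V).card ≤ 2 := card_le_two
      calc ({w, π w} : Finset V).card * M.card ≤ 2 * (8 * B) := Nat.mul_le_mul h3 hMc
        _ = 16 * B := by ring
    have h3 : ∀ x, K x ≠ none → ((({x} : Finset V).biUnion (fun x => ((nb G x).filter
        (fun v => K v ≠ K x)).image (fun x' => (Pco_rep e π x', a))))).card ≤ B := by
      intro x hx
      rw [singleton_biUnion]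
      exact card_image_le.trans (hS.out x hx)
    have h4 := h3 w (hπK w hw).1
    have h5 := h3 (π w) (by rw [hKπ (π w) (Or.inr rfl)]; exact Option.some_ne_none i)
    have h6 := card_union_le (M.image (fun w' => (w', a)))
      ((({w, π w} : Finset V) ×ˢ M).image (fun p => (Pco_rep e π p.2, col p.1 p.2)) ∪
    ((({w} : Finset V).biUnion (fun x => ((nb G x).filter (fun v => K v ≠ K x)).image
      (fun x' => (Pco_rep e π x', a)))) ∪
    (({π w} : Finset V).biUnion (fun x => ((nb G x).filter (fun v => K v ≠ K x)).image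
      (fun x' => (Pco_rep e π x', a))))))
    have h7 := card_union_le
      ((({w, π w} : Finset V) ×ˢ M).image (fun p => (Pco_rep e π p.2, col p.1 p.2)))
      ((({w} : Finset V).biUnion (fun x => ((nb G x).filter (fun v => K v ≠ K x)).image
        (fun x' => (Pco_rep e π x', a)))) ∪
      (({π w} : Finset V).biUnion (fun x => ((nb G x).filter (fun v => K v ≠ K x)).image
        (fun x' => (Pco_rep e π x', a)))))
    have h8 := card_union_le
      (({w} : Finset V).biUnion (fun x => ((nb G x).filter (fun v => K v ≠ K x)).image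
        (fun x' => (Pco_rep e π x', a))))
      (({π w} : Finset V).biUnion (fun x => ((nb G x).filter (fun v => K v ≠ K x)).image
        (fun x' => (Pco_rep e π x', a))))
    omega
  · intro w' a' hw' hew' hg hg' hadj
    obtain ⟨hne, x, x', hx, hx', h⟩ := hadj
    replace hx : x = w ∨ x = π w := hx
    replace hx' : x' = w' ∨ x' = π w' := hx'
    replace h : (a = a' ∧ K x = K x') ∨ E.N a x = E.N a' x' ∨ (a = a' ∧ G.Adj x x') := h
    have hKw' : ∀ y, (y = w' ∨ y = π w') → K y = K w' := by
      rintro y (rfl | rfl)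
      · rfl
      · exact (hπK w' hw').2.1
    have hgw' : ∀ y, (y = w' ∨ y = π w') → Pco_good G E K Q c0 y a' := by
      rintro y (rfl | rfl)
      · exact hg
      · exact hg'
    have hrep : ∀ y, (y = w' ∨ y = π w') → Pco_rep e π y = w' := by
      rintro y (rfl | rfl)
      · exact Pco_rep_self hew'
      · rw [Pco_rep_pi he hπ]
        exact Pco_rep_self hew'
    have hmov : ∀ y, (y = w' ∨ y = π w') → π y ≠ y := by
      rintro y (rfl | rfl)
      · exact hw'
      · rw [hπ]
        exact fun h' => hw' h'.symm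
    have hKx := hKπ x hx
    have hKx' := hKw' x' hx'
    have memM : ∀ y, (y = w' ∨ y = π w') → K w' = some i → y ∈ M := by
      intro y hy hK
      rw [hMdef]
      exact Pco_mem_Kr.2 ⟨by rw [hKw' y hy, hK], hmov y hy⟩
    rw [mem_union, mem_union, mem_union]
    rcases h with ⟨h1, h2⟩ | h1 | ⟨h1, h2⟩
    · left
      refine mem_image.2 ⟨w', memM w' (Or.inl rfl) ?_, ?_⟩
      · rw [← hKx', ← h2, hKx]
      · rw [h1]
    · right
      left
      have h3 : K (E.N a x) = K x := (hga x hx).2.1
      have h4 : K (E.N a' x') = K x' := (hgw' x' hx').2.1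
      have h5 : K w' = some i := by
        rw [← hKx', ← h4, ← h1, h3, hKx]
      refine mem_image.2 ⟨(x, x'), ?_, ?_⟩
      · rw [mem_product]
        refine ⟨?_, memM x' hx' h5⟩
        rw [mem_insert, mem_singleton]
        exact hx
      · rw [hrep x' hx', hcol x x' a' h1]
    · by_cases hKK : K w' = some i
      · left
        refine mem_image.2 ⟨w', memM w' (Or.inl rfl) hKK, ?_⟩
        rw [h1]
      · right
        right
        have h3 : x' ∈ (nb G x).filter (fun v => K v ≠ K x) := by
          rw [mem_filter]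
          refine ⟨?_, ?_⟩
          · unfold nb
            rw [mem_filter]
            exact ⟨mem_univ _, h2⟩
          · rw [hKx', hKx]
            exact hKK
        have h4 : (w', a') = (Pco_rep e π x', a) := by
          rw [hrep x' hx', h1]
        rcases hx with hx | hx
        · left
          refine mem_biUnion.2 ⟨w, mem_singleton_self _, ?_⟩
          rw [← hx]
          exact mem_image.2 ⟨x', h3, h4.symm⟩
        · right
          refine mem_biUnion.2 ⟨π w, mem_singleton_self _, ?_⟩
          rw [← hx]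
          exact mem_image.2 ⟨x', h3, h4.symm⟩

end

theorem thm_Pco : St_Pco := by
  intro V κ _ _ G E K D B Q c0 π hS hB hDB hQ hc0 hπ hπK hM
  rcases isEmpty_or_nonempty V with hV | hV
  · exact ⟨c0, fun v => isEmptyElim v, fun v => isEmptyElim v, fun v => isEmptyElim v,
      fun v => isEmptyElim v, fun v => isEmptyElim v, fun v => isEmptyElim v⟩
  obtain ⟨v0⟩ := hV
  obtain ⟨e, he⟩ : ∃ e : V → ℕ, Function.Injective e :=
    ⟨fun v => (Fintype.equivFin V v : ℕ), fun a b h =>
      (Fintype.equivFin V).injective (Fin.ext h)⟩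
  have hmπ : ∀ w, π w ≠ w → π (π w) ≠ π w := by
    intro w hw h
    rw [hπ] at h
    exact hw h.symm
  obtain ⟨f, hf1, hf2⟩ := Pool.Agent.Helper45.Vu.exists_transversal (Pco_G G E K π)
    (fun w : V => (univ.filter (fun a => Pco_good G E K Q c0 w a ∧
      Pco_good G E K Q c0 (π w) a)).image (fun a => (w, a))) (v0, c0 v0) (26 * B) (by omega)
    (univ.filter (fun w => π w ≠ w ∧ e w < e (π w)))
    (by
      intro w hw
      obtain ⟨-, hw1, hw2⟩ := mem_filter.1 hw
      rw [card_image_of_injective _ (fun a b h => (Prod.mk.inj h).2)]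
      have h1 := Pco_part hS Q c0 (hπK w hw1).1 (hπK (π w) (hmπ w hw1)).1
      omega)
    (by
      intro w hw x hx
      obtain ⟨-, hw1, hw2⟩ := mem_filter.1 hw
      obtain ⟨a, ha, rfl⟩ := mem_image.1 hx
      obtain ⟨-, ha1, ha2⟩ := mem_filter.1 ha
      obtain ⟨T, hT1, hT2⟩ := Pco_deg hS Q c0 he hπ hπK hM hw1 ha1 ha2
      have hd : ∑ j ∈ (univ.filter (fun w => π w ≠ w ∧ e w < e (π w))).erase w,
          (((univ.filter (fun a => Pco_good G E K Q c0 j a ∧
            Pco_good G E K Q c0 (π j) a)).image (fun a => (j, a))).filter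
          (fun y => (Pco_G G E K π).Adj (w, a) y)).card =
          (((univ.filter (fun w => π w ≠ w ∧ e w < e (π w))).erase w).biUnion (fun j =>
            ((univ.filter (fun a => Pco_good G E K Q c0 j a ∧
            Pco_good G E K Q c0 (π j) a)).image (fun a => (j, a))).filter
          (fun y => (Pco_G G E K π).Adj (w, a) y))).card := by
        rw [card_biUnion]
        intro j _ k _ hjk
        rw [Function.onFun, disjoint_left]
        intro y hy hz
        obtain ⟨b, _, hb⟩ := mem_image.1 (mem_filter.1 hy).1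
        obtain ⟨c, _, hc⟩ := mem_image.1 (mem_filter.1 hz).1
        apply hjk
        have h1 : (j, b).1 = (k, c).1 := by rw [hb, hc]
        exact h1
      have hs : (((univ.filter (fun w => π w ≠ w ∧ e w < e (π w))).erase w).biUnion (fun j =>
            ((univ.filter (fun a => Pco_good G E K Q c0 j a ∧
            Pco_good G E K Q c0 (π j) a)).image (fun a => (j, a))).filter
          (fun y => (Pco_G G E K π).Adj (w, a) y))) ⊆ T := by
        intro y hy
        obtain ⟨j, hj, hy⟩ := mem_biUnion.1 hy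
        obtain ⟨hy1, hy2⟩ := mem_filter.1 hy
        obtain ⟨b, hb, rfl⟩ := mem_image.1 hy1
        obtain ⟨-, hj1, hj2⟩ := mem_filter.1 (mem_erase.1 hj).2
        obtain ⟨-, hb1, hb2⟩ := mem_filter.1 hb
        exact hT2 j b hj1 hj2 hb1 hb2 hy2
      exact (le_of_eq hd).trans ((card_le_card hs).trans hT1))
  -- the colour of a representative
  have hf3 : ∀ w, π w ≠ w → (f (Pco_rep e π w)).1 = Pco_rep e π w ∧
      Pco_good G E K Q c0 (Pco_rep e π w) (f (Pco_rep e π w)).2 ∧
      Pco_good G E K Q c0 (π (Pco_rep e π w)) (f (Pco_rep e π w)).2 := by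
    intro w hw
    have h1 := hf1 (Pco_rep e π w) (mem_filter.2 ⟨mem_univ _, Pco_rep_mem he hπ hw⟩)
    obtain ⟨a, ha, hfa⟩ := mem_image.1 h1
    obtain ⟨-, ha1, ha2⟩ := mem_filter.1 ha
    rw [← hfa]
    exact ⟨rfl, ha1, ha2⟩
  have hgood : ∀ w, π w ≠ w → Pco_good G E K Q c0 w (f (Pco_rep e π w)).2 := by
    intro w hw
    obtain ⟨-, h2, h3⟩ := hf3 w hw
    rcases Pco_rep_or (e := e) hπ w with h | h
    · rw [← h] at h2 ⊢
      exact h2
    · rw [← h] at h3
      exact h3
  have hconf : ∀ w w', π w ≠ w → π w' ≠ w' →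
      ((f (Pco_rep e π w)).2 = (f (Pco_rep e π w')).2 ∧ K w = K w') ∨
        E.N (f (Pco_rep e π w)).2 w = E.N (f (Pco_rep e π w')).2 w' ∨
        ((f (Pco_rep e π w)).2 = (f (Pco_rep e π w')).2 ∧ G.Adj w w') → w' = w ∨ w' = π w := by
    intro w w' hw hw' h
    by_contra hcon
    have hne : Pco_rep e π w ≠ Pco_rep e π w' := fun h' => hcon (Pco_rep_eq hπ h')
    refine hf2 (Pco_rep e π w) (mem_filter.2 ⟨mem_univ _, Pco_rep_mem he hπ hw⟩)
      (Pco_rep e π w') (mem_filter.2 ⟨mem_univ _, Pco_rep_mem he hπ hw'⟩) hne ?_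
    refine ⟨?_, w, w', ?_, ?_, h⟩
    · rw [(hf3 w hw).1, (hf3 w' hw').1]
      exact hne
    · rw [(hf3 w hw).1]
      exact Pco_rep_or hπ w
    · rw [(hf3 w' hw').1]
      exact Pco_rep_or hπ w'
  obtain ⟨c, hcm, hcu⟩ : ∃ c : V → κ, (∀ w, π w ≠ w → c w = (f (Pco_rep e π w)).2) ∧
      ∀ w, π w = w → c w = c0 w := by
    refine ⟨fun w => if π w = w then c0 w else (f (Pco_rep e π w)).2, fun w hw => ?_,
      fun w hw => ?_⟩
    · beta_reduce
      rw [if_neg hw]
    · beta_reduce
      rw [if_pos hw]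
  have hnone : ∀ v, K v = none → π v = v := by
    intro v hv
    by_contra h
    exact (hπK v h).1 hv
  have hcπ : ∀ w, c (π w) = c w := by
    intro w
    by_cases h : π w = w
    · rw [h]
    · rw [hcm w h, hcm (π w) (hmπ w h), Pco_rep_pi he hπ]
  refine ⟨c, fun v hv => hcu v (hnone v hv), hcπ, ?_, ?_, ?_, ?_⟩
  · intro w hw
    rw [hcm w hw]
    exact ⟨(hgood w hw).1, (hgood w hw).2.1⟩
  · intro w w' hw hw' hK hcc
    rw [hcm w hw, hcm w' hw'] at hcc
    exact hconf w w' hw hw' (Or.inl ⟨hcc, hK⟩)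
  · have key : ∀ u v, π u ≠ u → K v = none → G.Adj u v → c u ≠ c v := by
      intro u v hu hv huv h
      rw [hcm u hu, hcu v (hnone v hv)] at h
      exact (hgood u hu).2.2 v huv hv h.symm
    intro u v hu hv huv
    by_cases hu' : π u = u
    · have hKu : K u = none := hu.resolve_right (fun h => h hu')
      by_cases hv' : π v = v
      · have hKv : K v = none := hv.resolve_right (fun h => h hv')
        rw [hcu u hu', hcu v hv']
        exact hc0 u v hKu hKv huv
      · exact (key v u hv' hKu huv.symm).symm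
    · by_cases hv' : π v = v
      · have hKv : K v = none := hv.resolve_right (fun h => h hv')
        exact key u v hu' hKv huv
      · intro h
        have h0 := h
        rw [hcm u hu', hcm v hv'] at h0
        rcases hconf u v hu' hv' (Or.inr (Or.inr ⟨h0, huv⟩)) with h1 | h1
        · rw [h1] at huv
          exact G.irrefl huv
        · rw [h1] at huv
          exact (hπK u hu').2.2 huv
  · intro w w' hw hw' h
    have h0 := h
    rw [hcm w hw, hcm w' hw'] at h0
    rcases hconf w w' hw hw' (Or.inr (Or.inl h0)) with h1 | h1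
    · exact h1.symm
    · rw [h1, hcπ] at h
      have h2 := congrArg (E.N (c w)) h
      rw [E.inv, E.inv] at h2
      rw [h1, ← h2]

end Pool.TN
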