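import Pool.Agent.Helper32.TN.StA

/-!
# T9, the pairs of all `K_i` (helper34)
-/

set_option autoImplicit false

namespace Pool.TN

open Pool.TC Pool.TCM Finset
open scoped Classical

/-- the non-neighbours of `w` in `Ki K i` -/
theorem Prs_count {V κ : Type} [Fintype V] [Fintype κ] {G : SimpleGraph V} {E : EC κ V}
    {K : V → Option V} {D B : ℕ} (hS : Sett G E K D B) {i w : V} (hw : w ∈ Ki K i)
    (rel : V → V → Prop) (hrel : ∀ x, rel w x ↔ x ≠ w ∧ ¬ G.Adj w x) :
    (Ki K i).card + oo G K w = D + 1 + ((Ki K i).filter (fun x => rel w x)).card := by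
  have hKw : K w = some i := by
    unfold Ki at hw
    exact (Finset.mem_filter.1 hw).2
  -- the neighbours
  have h1 := Finset.card_filter_add_card_filter_not (s := nb G w) (fun v => K v ≠ K w)
  rw [hS.reg w] at h1
  have h2 : (nb G w).filter (fun v => ¬ K v ≠ K w) = (Ki K i).filter (fun v => G.Adj w v) := by
    ext v
    unfold nb Ki
    simp only [Finset.mem_filter, Finset.mem_univ, true_and, not_not, hKw]
    tauto
  rw [h2] at h1
  -- the set
  have h3 := Finset.card_filter_add_card_filter_not (s := Ki K i) (fun v => G.Adj w v)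
  have h4 : (Ki K i).filter (fun v => ¬ G.Adj w v) =
      insert w ((Ki K i).filter (fun x => rel w x)) := by
    ext v
    rw [Finset.mem_insert, Finset.mem_filter, Finset.mem_filter, hrel]
    constructor
    · rintro ⟨hv1, hv2⟩
      by_cases h : v = w
      · exact Or.inl h
      · exact Or.inr ⟨hv1, h, hv2⟩
    · rintro (rfl | ⟨hv1, hv2, hv3⟩)
      · exact ⟨hw, G.irrefl⟩
      · exact ⟨hv1, hv3⟩
  rw [h4, Finset.card_insert_of_notMem (by simp [hrel])] at h3
  unfold oo
  omega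

theorem Prs_one (hMch : St_Mch) {V κ : Type} [Fintype V] [Fintype κ] {G : SimpleGraph V}
    {E : EC κ V} {K : V → Option V} {D B : ℕ} (hS : Sett G E K D B) (hB : 1 ≤ B)
    (hD : 40 * B ≤ D) (i : V) :
    ∃ (p : V → V) (μ lam : ℕ), (∀ w, p (p w) = w) ∧
      (∀ w, p w ≠ w → w ∈ Ki K i ∧ p w ∈ Ki K i ∧ ¬ G.Adj w (p w)) ∧
      ((Ki K i).filter (fun v => p v ≠ v)).card = 2 * μ ∧ μ ≤ 3 * B + 1 ∧
      ((Ki K i).Nonempty → ((Ki K i).filter (fun v => ¬ p v ≠ v)).card + lam + μ = D + 1) ∧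
      ∑ w ∈ (Ki K i).filter (fun v => ¬ p v ≠ v), oo G K w ≤
        ((Ki K i).filter (fun v => ¬ p v ≠ v)).card * lam := by
  rcases (Ki K i).eq_empty_or_nonempty with hem | hne
  · refine ⟨id, 0, 0, fun _ => rfl, fun w h => absurd rfl h, ?_, by omega, ?_, ?_⟩
    · rw [hem]
      simp
    · intro h
      rw [hem] at h
      exact absurd h Finset.not_nonempty_empty
    · rw [hem]
      simp
  · obtain ⟨rel, hrel⟩ : ∃ rel : V → V → Prop, ∀ w x, rel w x ↔ x ≠ w ∧ ¬ G.Adj w x :=
      ⟨fun w x => x ≠ w ∧ ¬ G.Adj w x, fun _ _ => Iff.rfl⟩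
    obtain ⟨a, ha⟩ : ∃ a : V → ℕ, a = fun w =>
        ((Ki K i).filter (fun x => rel w x)).card := ⟨_, rfl⟩
    have hax : ∀ w, a w = ((Ki K i).filter (fun x => rel w x)).card := fun w => by
      rw [ha]
    have hKi : ∀ w ∈ Ki K i, K w = some i := fun w hw => by
      unfold Ki at hw
      exact (Finset.mem_filter.1 hw).2
    have h0 : ∀ w ∈ Ki K i, (Ki K i).card + oo G K w = D + 1 + a w := fun w hw => by
      rw [hax]
      exact Prs_count hS hw rel (hrel w)
    have haB : ∀ w ∈ Ki K i, a w ≤ B := fun w hw => by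
      rw [hax]
      refine le_trans (Finset.card_le_card ?_) (hS.non w i (hKi w hw))
      intro x hx
      rw [Finset.mem_filter, hrel] at hx
      rw [Finset.mem_filter]
      exact ⟨Finset.mem_univ _, hKi x hx.1, hx.2⟩
    have hoB : ∀ w ∈ Ki K i, oo G K w ≤ B := fun w hw =>
      hS.out w (by rw [hKi w hw]; exact Option.some_ne_none i)
    obtain ⟨N, hN⟩ : ∃ N, N = (Ki K i).card := ⟨_, rfl⟩
    rw [← hN] at h0
    obtain ⟨w0, hw0⟩ := hne
    have hN1 : D + 1 ≤ N + B := by
      have h1 := h0 w0 hw0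
      have h2 := hoB w0 hw0
      omega
    have hN2 : N ≤ D + 1 + B := by
      have h1 := h0 w0 hw0
      have h2 := haB w0 hw0
      omega
    obtain ⟨A, hA⟩ : ∃ A, A = ∑ w ∈ Ki K i, a w := ⟨_, rfl⟩
    have hA1 : A ≤ N * B := by
      rw [hA, hN]
      calc ∑ w ∈ Ki K i, a w ≤ ∑ w ∈ Ki K i, B := Finset.sum_le_sum haB
        _ = (Ki K i).card * B := by rw [Finset.sum_const, smul_eq_mul]
    obtain ⟨μ, hμ⟩ : ∃ μ, μ = (2 * A + D - 1) / D := ⟨_, rfl⟩
    have hD0 : 0 < D := by omega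
    have hμ1 : D * μ < 2 * A + D := by
      have h1 := Nat.div_mul_le_self (2 * A + D - 1) D
      rw [← hμ, mul_comm] at h1
      omega
    have hμ2 : 2 * A ≤ D * μ := by
      have h1 := Nat.lt_div_mul_add (a := 2 * A + D - 1) hD0
      rw [← hμ, Nat.mul_comm μ D] at h1
      omega
    have hμ3 : μ ≤ 3 * B + 1 := by
      by_contra hcon
      rw [not_le] at hcon
      have h1 : D * (3 * B + 2) ≤ D * μ := Nat.mul_le_mul_left _ hcon
      have h2 : N * B ≤ (D + 1 + B) * B := Nat.mul_le_mul_right _ hN2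
      have h3 : 2 * (1 + B) * B ≤ D * B := Nat.mul_le_mul_right _ (by omega)
      nlinarith
    obtain ⟨p, hp1, hp2, hp3⟩ := hMch V (Ki K i) rel B μ
      (fun w x h => (hrel x w).2 ⟨fun h' => ((hrel w x).1 h).1 h'.symm,
        fun h' => ((hrel w x).1 h).2 h'.symm⟩)
      (fun w h => ((hrel w w).1 h).1 rfl) (fun w hw => by rw [← hax]; exact haB w hw) (by
        rcases Nat.eq_zero_or_pos μ with hz | hpos
        · exact Or.inl hz
        · right
          have hAe : ∑ w ∈ Ki K i, ((Ki K i).filter (fun x => rel w x)).card = A := by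
            rw [hA]
            exact Finset.sum_congr rfl fun w _ => (hax w).symm
          rw [hAe]
          obtain ⟨m, rfl⟩ : ∃ m, μ = m + 1 := ⟨μ - 1, by omega⟩
          have h1 : D * m < 2 * A := by
            rw [mul_add] at hμ1
            omega
          have h2 : (4 * B * m) * D < A * D := by
            have h3 : 4 * B * (D * m) < 4 * B * (2 * A) :=
              Nat.mul_lt_mul_of_pos_left h1 (by omega)
            have h4 : 8 * B * A ≤ D * A := Nat.mul_le_mul_right _ (by omega)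
            nlinarith
          rw [Nat.add_sub_cancel]
          exact Nat.lt_of_mul_lt_mul_right h2)
    have hn := Finset.card_filter_add_card_filter_not (s := Ki K i) (fun v => p v ≠ v)
    rw [hp3, ← hN] at hn
    obtain ⟨n, hnd⟩ : ∃ n, n = ((Ki K i).filter (fun v => ¬ p v ≠ v)).card := ⟨_, rfl⟩
    rw [← hnd] at hn
    have hnμ : n + μ ≤ D + 1 := by
      by_cases hc : N ≤ D + 1
      · omega
      · obtain ⟨t, ht⟩ : ∃ t, N = D + 1 + t := ⟨N - (D + 1), by omega⟩
        have h1 : ∀ w ∈ Ki K i, t ≤ a w := fun w hw => by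
          have h2 := h0 w hw
          omega
        have h2 : N * t ≤ A := by
          rw [hA, hN]
          calc (Ki K i).card * t = ∑ w ∈ Ki K i, t := by rw [Finset.sum_const, smul_eq_mul]
            _ ≤ ∑ w ∈ Ki K i, a w := Finset.sum_le_sum h1
        have h3 : D * (2 * t) ≤ D * μ := by
          have h4 : D * t ≤ N * t := Nat.mul_le_mul_right _ (by omega)
          nlinarith
        have h5 : 2 * t ≤ μ := Nat.le_of_mul_le_mul_left h3 hD0
        omega
    refine ⟨p, μ, D + 1 - μ - n, hp1, fun w hw => ?_, hp3, hμ3, fun _ => ?_, ?_⟩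
    · obtain ⟨h1, h2, h3⟩ := hp2 w hw
      exact ⟨h1, h2, ((hrel _ _).1 h3).2⟩
    · rw [← hnd]
      omega
    · rw [← hnd]
      obtain ⟨lam, hlam⟩ : ∃ lam, lam = D + 1 - μ - n := ⟨_, rfl⟩
      rw [← hlam]
      have hsub : (Ki K i).filter (fun v => ¬ p v ≠ v) ⊆ Ki K i := Finset.filter_subset _ _
      have h1 : ∑ w ∈ (Ki K i).filter (fun v => ¬ p v ≠ v), a w ≤ A := by
        rw [hA]
        exact Finset.sum_le_sum_of_subset hsub
      -- in the integers
      have h2 : (∑ w ∈ (Ki K i).filter (fun v => ¬ p v ≠ v), (oo G K w : ℤ)) =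
          n * ((D : ℤ) + 1 - N) + ∑ w ∈ (Ki K i).filter (fun v => ¬ p v ≠ v), (a w : ℤ) := by
        have h3 : ∀ w ∈ (Ki K i).filter (fun v => ¬ p v ≠ v),
            (oo G K w : ℤ) = ((D : ℤ) + 1 - N) + (a w : ℤ) := by
          intro w hw
          have h4 := h0 w (hsub hw)
          have h5 : ((N : ℤ) + (oo G K w : ℤ)) = (D : ℤ) + 1 + (a w : ℤ) := by exact_mod_cast h4
          linarith
        rw [Finset.sum_congr rfl h3, Finset.sum_add_distrib, Finset.sum_const, ← hnd,
          nsmul_eq_mul]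
      have h3 : (∑ w ∈ (Ki K i).filter (fun v => ¬ p v ≠ v), (a w : ℤ)) ≤ (A : ℤ) := by
        exact_mod_cast h1
      have h4 : (lam : ℤ) = ((D : ℤ) + 1 - N) + μ := by omega
      have h5 : D ≤ 2 * n := by omega
      have h6 : (A : ℤ) ≤ n * μ := by
        have h7 : 2 * A ≤ 2 * (n * μ) := by
          calc 2 * A ≤ D * μ := hμ2
            _ ≤ (2 * n) * μ := Nat.mul_le_mul_right _ h5
            _ = 2 * (n * μ) := by ring
        have h8 : A ≤ n * μ := by omega
        exact_mod_cast h8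
      have h7 : (∑ w ∈ (Ki K i).filter (fun v => ¬ p v ≠ v), (oo G K w : ℤ)) ≤
          (n : ℤ) * (lam : ℤ) := by
        rw [h2, h4]
        nlinarith
      exact_mod_cast h7

theorem thm_Prs (hMch : St_Mch) : St_Prs := by
  intro V κ _ _ G E K D B hS hB hD
  choose p μ lam h1 h2 h3 h4 h5 h6 using Prs_one hMch hS hB hD
  have hKi : ∀ i w, w ∈ Ki K i ↔ K w = some i := fun i w => by
    unfold Ki
    rw [Finset.mem_filter]
    exact ⟨fun h => h.2, fun h => ⟨Finset.mem_univ _, h⟩⟩
  obtain ⟨π, hπ⟩ : ∃ π : V → V, π = fun w => (K w).elim w (fun i => p i w) := ⟨_, rfl⟩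
  have hπn : ∀ w, K w = none → π w = w := fun w hw => by
    rw [hπ]
    simp only [hw]
    rfl
  have hπs : ∀ w i, K w = some i → π w = p i w := fun w i hw => by
    rw [hπ]
    simp only [hw]
    rfl
  have hKp : ∀ w i, K w = some i → K (p i w) = some i := fun w i hw => by
    by_cases h : p i w = w
    · rw [h, hw]
    · exact (hKi i _).1 (h2 i w h).2.1
  have hmK : ∀ (R : V → Prop) (i v : V), v ∈ Kr K R i ↔ K v = some i ∧ R v := fun R i v => by
    unfold Kr
    rw [Finset.mem_filter]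
    exact ⟨fun h => h.2, fun h => ⟨Finset.mem_univ _, h⟩⟩
  have hKr : ∀ i, Kr K (fun v => π v ≠ v) i = (Ki K i).filter (fun v => p i v ≠ v) := by
    intro i
    ext v
    rw [Finset.mem_filter, hmK, hKi]
    constructor
    · rintro ⟨hv1, hv2⟩
      rw [hπs v i hv1] at hv2
      exact ⟨hv1, hv2⟩
    · rintro ⟨hv1, hv2⟩
      rw [← hπs v i hv1] at hv2
      exact ⟨hv1, hv2⟩
  have hKr' : ∀ i, Kr K (fun v => ¬ π v ≠ v) i = (Ki K i).filter (fun v => ¬ p i v ≠ v) := by
    intro i
    ext v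
    rw [Finset.mem_filter, hmK, hKi]
    constructor
    · rintro ⟨hv1, hv2⟩
      rw [hπs v i hv1] at hv2
      exact ⟨hv1, hv2⟩
    · rintro ⟨hv1, hv2⟩
      rw [← hπs v i hv1] at hv2
      exact ⟨hv1, hv2⟩
  refine ⟨π, μ, lam, ?_, ?_, ?_, h4, ?_, ?_⟩
  · intro w
    rcases hw : K w with _ | i
    · rw [hπn w hw, hπn w hw]
    · rw [hπs w i hw, hπs _ i (hKp w i hw), h1]
  · intro w hne
    rcases hw : K w with _ | i
    · exact absurd (hπn w hw) hne
    · rw [hπs w i hw] at hne ⊢
      obtain ⟨g1, g2, g3⟩ := h2 i w hne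
      refine ⟨Option.some_ne_none i, ?_, g3⟩
      exact (hKi i _).1 g2
  · intro i
    rw [hKr i]
    exact h3 i
  · intro i hi
    rw [hKr' i]
    exact h5 i hi
  · intro i
    rw [hKr' i]
    exact h6 i

end Pool.TN
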