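import Pool.Agent.Helper60.TN.Defs

/-!
# T9, block 1: the function lemma and the final recolouring (FUN, END), the decomposition (DEC),
the pairs (3a)

Statements with complete proofs in the docstrings.  The theorem `thm_X : St_X` goes into
`Pool/Agent/Helper32/TN/X.lean`; hypotheses of `thm_X` may be the earlier statements named in the
docstring.  Interface: `Pool.TN` (`Helper60/TN/Defs.lean`).
-/

set_option autoImplicit false

namespace Pool.TN

open Pool.TC Pool.TCM Finset
open scoped Classical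

/-! ### FUN and END -/

/-- [Deg] Colouring of a degenerate conflict relation.
PROOF.  For `W : Finset V` prove by induction on `W.card` (or `Finset.strongInduction`): there is
`g : V → Fin (r + 1)` with `g u ≠ g w` for `u, w ∈ W`, `cf u w`, `u ≠ w`.  `W` nonempty: take the `u` of
the hypothesis, colour `W.erase u`, and change the value at `u` (`Function.update`) to a colour
which is not in the image of the at most `r` conflicting elements of `W.erase u`
(`Finset.exists_mem_notMem_of_card_lt_card` or a card argument in `Fin (r + 1)`).  At the end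
`W = univ`. -/
def St_Deg : Prop := ∀ (V : Type) [Fintype V] (cf : V → V → Prop) (r : ℕ),
  (∀ u w, cf u w → cf w u) →
  (∀ W : Finset V, W.Nonempty → ∃ u ∈ W, (W.filter (fun w => w ≠ u ∧ cf u w)).card ≤ r) →
  ∃ g : V → Fin (r + 1), ∀ u w, u ≠ w → cf u w → g u ≠ g w

/-- [Fun] (from `St_Deg`) Colouring of the conflicts of a function `p` with fibres of size at most
`r`, `2 ≤ r`.
PROOF.  `cf u w` := `p u ≠ u ∧ p w ≠ w ∧ (p u = p w ∨ p u = w ∨ p w = u)` (symmetric).  Hypothesis of `St_Deg`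
for `W`: let `W0` be the set of the `w ∈ W` with `p w ≠ w`.  If some `u ∈ W` is not in `W0`, this `u`
has no conflicts.  So assume `W = W0`.  Case 1: some `u ∈ W` is not of the form `p w`, `w ∈ W`.  Its
conflicting elements in `W` are `p u` (at most 1) and the siblings `w ≠ u`, `p w = p u`, `p w ≠ w`: at most
`r - 1`, because `u` itself is in the same fibre.  Together at most `r`.  Case 2: `W ⊆ p '' W`.  Then
`p` is injective on `W` (`Finset.surj_on`/card: `W.card ≤ (W.image p).card ≤ W.card`, so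
`Finset.card_image_iff`).  For any `u ∈ W`: no siblings in `W`, conflicting elements are `p u` and
the `w ∈ W` with `p w = u` (at most one by injectivity): at most `2 ≤ r`. -/
def St_Fun : Prop := ∀ (V : Type) [Fintype V] (p : V → V) (r : ℕ), 2 ≤ r →
  (∀ v, (univ.filter (fun u => p u = v ∧ u ≠ v)).card ≤ r) →
  ∃ g : V → Fin (r + 1),
    (∀ u w, u ≠ w → p u ≠ u → p w ≠ w → p u = p w → g u ≠ g w) ∧
    (∀ u, p u ≠ u → p (p u) ≠ p u → g u ≠ g (p u))

/-- [End] (from `St_Fun`) The final recolouring: a proper vertex colouring with loads at most `r`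
gives a total colouring with `r + 1` additional colours.
PROOF.  `p u := E.N (c u) u`, `g` from `St_Fun` (the fibres are bounded by `ld`).  Not both `p u = v ≠ u` and
`p v = u`: otherwise `E.N (c u) u = v`, so `E.N (c u) v = u = E.N (c v) v` (`E.inv`), `E.N (c v) v ≠ v`, and
`E.uniq` gives `c u = c v`, contradiction to `Prp` (`G.Adj u v` by `hadj`).
Define `e s` for `s : Sym2 V`: if there is `x` with `s = s(x, p x)` and `p x ≠ x` then `Sum.inr (g x)` for such an
`x` (it is unique by the remark above), else `Sum.inl a` for some `a` with `s = s(u, E.N a u)` for some `u`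
(or anything).  (Compare `Pool/Agent/Helper3/TCM/Fin.lean`.)
Proper: edges `uv`, `uw`, `v ≠ w`.  Both `inl a`: `v = E.N a u = w` (for `s(u,v) = s(x, E.N a x)` one gets
`E.N a u = v` in both cases by `E.inv`).  Both `inr`: conflicting ends `x ∈ {u, v}`, `y ∈ {u, w}`: `x = y = u`
gives `v = p u = w`; `x = u`, `y = w`: `p w = u`, `p u = v`, `g w ≠ g (p w) = g u` (here `p (p w) = v ≠ u = p w`);
`x = v`, `y = u` symmetric; `x = v`, `y = w`: `p v = u = p w`, first property of `g`.
Vertices: if `e s(u,v) = Sum.inl (c u)` then `E.N (c u) u = v`, so `p u = v ≠ u` and the colour is `inr`. -/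
def St_End : Prop := ∀ (V κ : Type) [Fintype V] [Fintype κ] (G : SimpleGraph V) (E : EC κ V)
  (c : V → κ) (r : ℕ), (∀ a u, E.N a u ≠ u → G.Adj u (E.N a u)) →
  (∀ u v, G.Adj u v → ∃ a, E.N a u = v) → 2 ≤ r →
  Prp G (fun _ => True) c → (∀ v, ld E (fun _ => True) c v ≤ r) →
  ∃ e : Sym2 V → κ ⊕ Fin (r + 1),
    (∀ u v w, G.Adj u v → G.Adj u w → v ≠ w → e s(u, v) ≠ e s(u, w)) ∧
    (∀ u v, G.Adj u v → e s(u, v) ≠ Sum.inl (c u))

/-! ### DEC -/

section dec

variable {V : Type} [Fintype V]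

/-- the closed neighbourhood -/
noncomputable def cnb (G : SimpleGraph V) (u : V) : Finset V := insert u (nb G u)

/-- the number of ordered pairs of distinct non-adjacent neighbours of `u` -/
noncomputable def npr (G : SimpleGraph V) (u : V) : ℕ :=
  ((nb G u ×ˢ nb G u).filter (fun p => p.1 ≠ p.2 ∧ ¬ G.Adj p.1 p.2)).card

/-- the distance of the closed neighbourhoods of two vertices -/
noncomputable def dd (G : SimpleGraph V) (u x : V) : ℕ := (cnb G u \ cnb G x).card

/-- the ball of radius `8 h` around `u` -/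
noncomputable def KK (G : SimpleGraph V) (h : ℕ) (u : V) : Finset V :=
  univ.filter (fun x => dd G u x ≤ 8 * h)

end dec

/-- [Met] The metric `dd`.
PROOF.  All closed neighbourhoods have `D + 1` elements (`u ∉ nb G u`).  1, 2:
`|A \ B| + |A ∩ B| = |A|` (`Finset.card_sdiff_add_card_inter`), and `|A| = |B|`.  3: `A \ C ⊆ (A \ B) ∪ (B \ C)`.
4: `∑_{x ∈ nb G u} |cnb u \ cnb x|` counts the pairs `(x, y)` with `x ∈ nb G u`, `y ∈ cnb G u`, `y ≠ x`,
`¬ G.Adj x y`; `y ≠ u` because `G.Adj x u`; so these are exactly the pairs of `npr`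
(`Finset.card_sigma` or `Finset.card_eq_sum_card_fiberwise`, `sum_card_bipartite`). -/
def St_Met : Prop := ∀ (V : Type) [Fintype V] (G : SimpleGraph V) (D : ℕ),
  (∀ u, (nb G u).card = D) →
  (∀ u x, dd G u x = dd G x u) ∧
  (∀ u x, (cnb G u ∩ cnb G x).card + dd G u x = D + 1) ∧
  (∀ u x y, dd G u y ≤ dd G u x + dd G x y) ∧
  (∀ u, ∑ x ∈ nb G u, dd G u x = npr G u)

/-- [Cor] (from `St_Met`) The core and the ball of a dense vertex `u`.
PROOF.  `dd u u = 0`, so the elements `x` of `cnb u` with `h < dd u x` are in `nb u`;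
`(h + 1) * #{..} ≤ npr u < h ^ 2`, so `#{..} < h`: (1).
(2) `cnb w \ KK ⊆ (cnb w \ cnb u) ∪ {x ∈ cnb u | h < dd u x}` (an `x ∈ cnb u` with `dd u x ≤ h` is in `KK`): at most
`8 h + h`.
(3) first `|KK \ cnb u| ≤ 6 h`: every `x ∈ KK \ cnb u` has `|cnb x ∩ cnb u| ≥ D + 1 - 8 h` and `x ∉ cnb u`, so it
has at least `D + 1 - 8 h` neighbours in `cnb u`.  Double counting of the edges between `cnb u`
and its complement: `y ∈ cnb u` has at most `dd u y` neighbours outside (`nb y \ cnb u ⊆ cnb y \ cnb u`),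
i.e. at most `h`, except fewer than `h` vertices `y` with at most `D` neighbours.  So
`|KK \ cnb u| * (D + 1 - 8 h) ≤ (D + 1) h + h D`, and `6 h (D + 1 - 8 h) ≥ (2 D + 1) h` because `36 h ≤ D`
(if `|KK \ cnb u| ≥ 6 h + 1` one gets a contradiction).  Then
`KK \ cnb w ⊆ (KK \ cnb u) ∪ (cnb u \ cnb w)`: at most `6 h + 8 h`. -/
def St_Cor : Prop := ∀ (V : Type) [Fintype V] (G : SimpleGraph V) (D h : ℕ) (u : V),
  (∀ u, (nb G u).card = D) → 1 ≤ h → 36 * h ≤ D → npr G u < h ^ 2 →
  ((cnb G u).filter (fun x => h < dd G u x)).card < h ∧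
  (∀ w ∈ KK G h u, (cnb G w \ KK G h u).card ≤ 9 * h) ∧
  (∀ w ∈ KK G h u, (KK G h u \ cnb G w).card ≤ 14 * h)

/-- [Dec] (from `St_Met`, `St_Cor`) The decomposition.
PROOF.  `dense u` := `npr G u < h ^ 2`.  (a) `u, u'` dense, `dd u u' ≤ 16 h` => `dd u u' ≤ 2 h`:
`|cnb u ∩ cnb u'| ≥ D + 1 - 16 h > 2 h`, fewer than `h` elements of `cnb u` have `h < dd u x`, fewer
than `h` of `cnb u'` have `h < dd u' x`, so some `y` in the intersection has `dd u y ≤ h`, `dd u' y ≤ h`.
(b) Let `R` be a maximal set of dense vertices with `dd u u' > 2 h` for distinct `u, u' ∈ R`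
(`Finset.exists_maximal` over the powerset, or `exists_max_image` of the card).  The balls
`KK G h u`, `u ∈ R`, are disjoint: `x` in two of them gives `dd u u' ≤ 16 h`, so `≤ 2 h` by (a).  Every
dense `u` is in some ball: `u ∈ R` (`dd u u = 0`), or by maximality `dd u u' ≤ 2 h` for some `u' ∈ R`.
`K v := some u` if `v ∈ KK G h u`, `u ∈ R` (unique), `none` otherwise.
`Sett`: reg, col, adj, cov are given.  inj: `a ↦ E.N a u` maps the colours with `E.N a u ≠ u`
injectively (`E.uniq`) onto `nb G u` (`cov`, `adj`), so there are exactly `D` of them, and exactly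
one colour with `E.N a u = u`.  out: for `K w = some u`: `{v ∈ nb w | K v ≠ K w} ⊆ cnb w \ KK u`: at most
`9 h`.  non: `{v | K v = some u, v ≠ w, not adjacent} ⊆ KK u \ cnb w`: at most `14 h`. -/
def St_Dec : Prop := ∀ (V κ : Type) [Fintype V] [Fintype κ] (G : SimpleGraph V) (E : EC κ V)
  (D h : ℕ), (∀ u, (nb G u).card = D) → Fintype.card κ = D + 1 →
  (∀ a u, E.N a u ≠ u → G.Adj u (E.N a u)) → (∀ u v, G.Adj u v → ∃ a, E.N a u = v) →
  1 ≤ h → 36 * h ≤ D →
  ∃ K : V → Option V, Sett G E K D (14 * h) ∧ ∀ u, K u = none → h ^ 2 ≤ npr G u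

/-! ### The pairs -/

/-- [Mch] Disjoint pairs.
PROOF.  Induction on `μ`, `μ = 0`: `π = id`.  `μ + 1`: by the induction hypothesis (for `μ`; if `μ ≥ 1`
then `4 B (μ - 1) ≤ 4 B μ < A`) there is `π` with `2 μ` moved vertices.  If no two distinct unmoved
`w, x ∈ Ks` satisfy `rel w x` then every pair `(w, x)` counted by
`A = ∑_{w ∈ Ks} #{x ∈ Ks | rel w x}` has `w` moved or `x` moved, so (symmetry, `rel w w` false)
`A ≤ 2 * (2 μ) * B`, contradiction.  So take `w ≠ x` unmoved in `Ks` with `rel w x` and compose: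
`π' = ` swap `w`, `x`, otherwise `π`. -/
def St_Mch : Prop := ∀ (V : Type) [Fintype V] (Ks : Finset V) (rel : V → V → Prop) (B μ : ℕ),
  (∀ w x, rel w x → rel x w) → (∀ w, ¬ rel w w) →
  (∀ w ∈ Ks, (Ks.filter (fun x => rel w x)).card ≤ B) →
  (μ = 0 ∨ 4 * B * (μ - 1) < ∑ w ∈ Ks, (Ks.filter (fun x => rel w x)).card) →
  ∃ π : V → V, (∀ w, π (π w) = w) ∧ (∀ w, π w ≠ w → w ∈ Ks ∧ π w ∈ Ks ∧ rel w (π w)) ∧
    (Ks.filter (fun w => π w ≠ w)).card = 2 * μ

/-- [Prs] (from `St_Mch`) The pairs of all `K_i`.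
PROOF.  Fix `i` with `K_i := Ki K i` nonempty.  For `w ∈ K_i` let `a_w` be the number in `Sett.non`.
`K_i` is the disjoint union of `{w}`, `nb w ∩ K_i` (`D - oo w` elements) and the `a_w` non-neighbours:
(0) `|K_i| + oo w = D + 1 + a_w`.  So `D + 1 ≤ |K_i| + B`, `|K_i| ≤ D + 1 + B`.  `A := ∑ a_w`,
`μ := (2 A + D - 1) / D`: `2 A ≤ D μ < 2 A + D` (for `A = 0`: `μ = 0`).  `μ ≤ 3 B + 1`: `D μ < 2 (D + 1 + B) B + D`
and `2 (1 + B) ≤ D`.
`St_Mch` with `rel w x := x ≠ w ∧ ¬ G.Adj w x`: if `μ ≥ 1` then `A > 0` and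
`4 B D (μ - 1) < 8 A B ≤ A D`, so `4 B (μ - 1) < A`.  Glue the `π_i`: `π w := π_i w` if `K w = some i`, `π w := w` if
`K w = none`.
`n := |K_i| - 2 μ` unmoved vertices; `n ≥ D + 1 - B - 2 (3 B + 1)`, so `2 n ≥ D` (`40 B ≤ D`).
`lam i := D + 1 - μ - n`; `n + μ ≤ D + 1`: clear if `|K_i| ≤ D + 1`; otherwise `t := |K_i| - (D + 1) > 0`,
`a_w ≥ t` for all `w` by (0), so `A ≥ t |K_i| ≥ t D`, `μ ≥ 2 t`, and `n + μ = |K_i| - μ ≤ D + 1`.
Last claim: in the integers, with `s := D + 1 - |K_i|`: `oo w = s + a_w` and `lam i = s + μ`, so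
`∑_{unmoved} oo w = n s + ∑_{unmoved} a_w ≤ n s + A ≤ n s + n μ`, because `2 n μ ≥ D μ ≥ 2 A`.
For empty `K_i` put `μ = lam = 0`. -/
def St_Prs : Prop := ∀ (V κ : Type) [Fintype V] [Fintype κ] (G : SimpleGraph V) (E : EC κ V)
  (K : V → Option V) (D B : ℕ), Sett G E K D B → 1 ≤ B → 40 * B ≤ D →
  ∃ (π : V → V) (μ lam : V → ℕ), (∀ w, π (π w) = w) ∧
    (∀ w, π w ≠ w → K w ≠ none ∧ K (π w) = K w ∧ ¬ G.Adj w (π w)) ∧
    (∀ i, (Kr K (fun v => π v ≠ v) i).card = 2 * μ i) ∧ (∀ i, μ i ≤ 3 * B + 1) ∧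
    (∀ i, (Ki K i).Nonempty → (Kr K (fun v => ¬ π v ≠ v) i).card + lam i + μ i = D + 1) ∧
    (∀ i, ∑ w ∈ Kr K (fun v => ¬ π v ≠ v) i, oo G K w ≤
      (Kr K (fun v => ¬ π v ≠ v) i).card * lam i)

/-- [Pco] The colouring of the pairs, by
`Pool.Agent.Helper45.Vu.exists_transversal` (file `Pool/Agent/Helper45/Vu/IT.lean`; see
`Pool/Agent/Helper3/TCS/IT.lean` for an application).
PROOF.  Call `a` good for a moved `w` if `a ∉ Q`, `K (E.N a w) = K w`, and no `x` with `G.Adj w x`, `K x = none`,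
`c0 x = a` exists.  At most `Q.card + 2 B ≤ D / 25 + 2 B` colours are not good for `w`: the `a` with
`K (E.N a w) ≠ K w` have `E.N a w ≠ w`, so `a ↦ E.N a w` maps them injectively (`Sett.inj`) into the set of
`oo G K w`; the colours of the neighbours `x` with `K x = none ≠ K w` are at most `oo G K w`.
Index set: the unordered pairs `s(w, π w)`, `w` moved (in `Sym2 V`).  Part of `s`: the `(s, a)` with `a`
good for both ends (`E.N a w` in `K_i` for both): at least `D + 1 - D / 25 - 4 B ≥ 9 D / 10` elements.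
Graph on `Sym2 V × κ`: `(s, a) ~ (s', a')` iff `s ≠ s'` and for some `w ∈ s`, `w' ∈ s'`:
(1) `a = a'` and `K w = K w'`, or (2) `E.N a w = E.N a' w'`, or (3) `a = a'` and `G.Adj w w'`.
Number of neighbours of `(s, a)`, `s ⊆ K_i`, in the other parts: (1) at most `8 B`; (2) `K w' = K (E.N a' w') =
K (E.N a w) = K w`, so `w'` is one of the at most `8 B` moved vertices of `K_i`, and for given `w, w'` the
colour `a'` is unique (`E.N a' w' = v` determines `a'` by `Sett.inj`): at most `16 B`; (3) if `K w' = K w` it is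
(1), otherwise `w'` is one of the `oo G K w ≤ B` outer neighbours of `w`: at most `2 B`.  Sum `≤ 26 B`, and
`4 * (26 B) ≤ 9 D / 10`.
The transversal gives a colour for every pair; `c w` := the colour of `s(w, π w)` for moved `w`, `c w := c0 w`
if `K w = none`, arbitrary otherwise (e.g. `c0 w`).  The ends of one pair are not adjacent, and
`E.N a w = E.N a (π w)` implies `w = π w` (`E.inv`), so the last two claims hold also inside a pair.
`c (π w) = c w`: for unmoved `w` trivial. -/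
def St_Pco : Prop := ∀ (V κ : Type) [Fintype V] [Fintype κ] (G : SimpleGraph V) (E : EC κ V)
  (K : V → Option V) (D B : ℕ) (Q : Finset κ) (c0 : V → κ) (π : V → V), Sett G E K D B →
  1 ≤ B → 1000 * B ≤ D → 25 * Q.card ≤ D → Prp G (fun v => K v = none) c0 →
  (∀ w, π (π w) = w) → (∀ w, π w ≠ w → K w ≠ none ∧ K (π w) = K w ∧ ¬ G.Adj w (π w)) →
  (∀ i, (Kr K (fun v => π v ≠ v) i).card ≤ 8 * B) →
  ∃ c : V → κ, (∀ v, K v = none → c v = c0 v) ∧ (∀ w, c (π w) = c w) ∧
    (∀ w, π w ≠ w → c w ∉ Q ∧ K (E.N (c w) w) = K w) ∧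
    (∀ w w', π w ≠ w → π w' ≠ w' → K w = K w' → c w = c w' → w' = w ∨ w' = π w) ∧
    Prp G (fun v => K v = none ∨ π v ≠ v) c ∧
    (∀ w w', π w ≠ w → π w' ≠ w' → E.N (c w) w = E.N (c w') w' → w = w')

/-- [T3a] (from `St_Prs`, `St_Pco`; result `thm_T3a : St_3a`) Assembly.
PROOF.  `Numb` gives `1 ≤ B` and `1000 B ≤ D` (`Lam ≥ 1`).  `π, μ, lam` from `St_Prs`
(`2 μ i ≤ 6 B + 2 ≤ 8 B`), `c` from `St_Pco`, `pr v := π v ≠ v`.  prK, prp, prQ, prR: given (`A1 K pr` is
`K v = none ∨ pr v`).  prL: `ld E pr c v ≤ 1` from the last claim.  prC: `2 μ i ≤ 8 B`.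
cnt: `Av K pr c i` is the complement of the image under `c` of the moved vertices of `K_i`; every
fibre is `{w, π w}` (claims 2 and 4), so this image has `μ i` elements (`2 * image.card = 2 * μ i`,
`Finset.card_eq_sum_card_image`), so `(Av ..).card = D + 1 - μ i`.  sum: given. -/
def St_T3a : Prop := St_3a

end Pool.TN
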