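import Pool.Agent.Helper32.TN.StA

/-!
# T9 [Cor]: the core and the ball of a dense vertex
-/

set_option autoImplicit false

namespace Pool.TN

open Pool.TC Pool.TCM Finset
open scoped Classical

section cor

variable {V : Type} [Fintype V]

lemma Cor_self (G : SimpleGraph V) (u : V) : dd G u u = 0 := by
  unfold dd
  rw [Finset.sdiff_self, Finset.card_empty]

lemma Cor_notMem (G : SimpleGraph V) (u : V) : u ∉ nb G u := by
  intro h
  exact G.loopless.irrefl u (Finset.mem_filter.1 h).2

/-- double counting: edges between the closed neighbourhood of `u` and a set outside -/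
lemma Cor_count (G : SimpleGraph V) (D : ℕ) (u : V) (M : Finset V)
    (h2 : ∀ x, (cnb G u ∩ cnb G x).card + dd G u x = D + 1) (h1 : ∀ x, dd G u x = dd G x u)
    (h4 : ∑ x ∈ nb G u, dd G u x = npr G u) (r : ℕ) (hM : ∀ x ∈ M, x ∉ cnb G u ∧ dd G u x ≤ r) :
    M.card * (D + 1 - r) ≤ npr G u := by
  have e1 : M.card * (D + 1 - r) ≤ ∑ x ∈ M, ((cnb G u).filter (fun y => G.Adj x y)).card := by
    rw [← smul_eq_mul]
    apply Finset.card_nsmul_le_sum
    intro x hx
    obtain ⟨hx1, hx2⟩ := hM x hx
    have h3 := h2 x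
    have h5 : cnb G u ∩ cnb G x ⊆ (cnb G u).filter (fun y => G.Adj x y) := by
      intro y hy
      obtain ⟨hy1, hy2⟩ := Finset.mem_inter.1 hy
      refine Finset.mem_filter.2 ⟨hy1, ?_⟩
      rcases Finset.mem_insert.1 hy2 with h | h
      · subst h
        exact absurd hy1 hx1
      · exact (Finset.mem_filter.1 h).2
    have h6 := Finset.card_le_card h5
    omega
  have e2 : ∑ x ∈ M, ((cnb G u).filter (fun y => G.Adj x y)).card =
      ∑ y ∈ cnb G u, (M.filter (fun x => G.Adj x y)).card := by
    simp only [Finset.card_filter]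
    exact Finset.sum_comm
  have e3 : ∑ y ∈ cnb G u, (M.filter (fun x => G.Adj x y)).card ≤ ∑ y ∈ cnb G u, dd G u y := by
    refine Finset.sum_le_sum fun y _ => ?_
    rw [h1 y]
    unfold dd
    apply Finset.card_le_card
    intro x hx
    obtain ⟨hx1, hx2⟩ := Finset.mem_filter.1 hx
    refine Finset.mem_sdiff.2 ⟨?_, (hM x hx1).1⟩
    exact Finset.mem_insert_of_mem (Finset.mem_filter.2 ⟨Finset.mem_univ _, hx2.symm⟩)
  have e4 : ∑ y ∈ cnb G u, dd G u y = npr G u := by
    unfold cnb
    rw [Finset.sum_insert (Cor_notMem G u), Cor_self, zero_add, h4]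
  omega

end cor

/-- [Cor] -/
theorem thm_Cor (hMet : St_Met) : St_Cor := by
  intro V _ G D h u hreg hh hD hnpr
  obtain ⟨m1, m2, m3, m4⟩ := hMet V G D hreg
  have c1 : ((cnb G u).filter (fun x => h < dd G u x)).card < h := by
    have e1 : (cnb G u).filter (fun x => h < dd G u x) ⊆ (nb G u).filter (fun x => h < dd G u x) := by
      intro x hx
      obtain ⟨hx1, hx2⟩ := Finset.mem_filter.1 hx
      refine Finset.mem_filter.2 ⟨?_, hx2⟩
      rcases Finset.mem_insert.1 hx1 with h5 | h5
      · subst h5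
        rw [Cor_self] at hx2
        omega
      · exact h5
    have e2 := Finset.card_le_card e1
    have e3 : ((nb G u).filter (fun x => h < dd G u x)).card * h ≤
        ∑ x ∈ (nb G u).filter (fun x => h < dd G u x), dd G u x := by
      rw [← smul_eq_mul]
      apply Finset.card_nsmul_le_sum
      intro x hx
      exact (Finset.mem_filter.1 hx).2.le
    have e4 : ∑ x ∈ (nb G u).filter (fun x => h < dd G u x), dd G u x ≤ ∑ x ∈ nb G u, dd G u x :=
      Finset.sum_le_sum_of_subset (Finset.filter_subset _ _)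
    rw [m4] at e4
    by_contra hcon
    have e5 : h * h ≤ ((nb G u).filter (fun x => h < dd G u x)).card * h :=
      Nat.mul_le_mul_right h (by omega)
    rw [pow_two] at hnpr
    omega
  refine ⟨c1, fun w hw => ?_, fun w hw => ?_⟩
  · have hw' : dd G w u ≤ 8 * h := by
      rw [← m1 u w]
      exact (Finset.mem_filter.1 hw).2
    have e1 : cnb G w \ KK G h u ⊆ (cnb G w \ cnb G u) ∪ (cnb G u).filter (fun x => h < dd G u x) := by
      intro x hx
      obtain ⟨hx1, hx2⟩ := Finset.mem_sdiff.1 hx
      by_cases hxu : x ∈ cnb G u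
      · refine Finset.mem_union_right _ (Finset.mem_filter.2 ⟨hxu, ?_⟩)
        by_contra hcon
        exact hx2 (Finset.mem_filter.2 ⟨Finset.mem_univ _, by omega⟩)
      · exact Finset.mem_union_left _ (Finset.mem_sdiff.2 ⟨hx1, hxu⟩)
    have e2 := (Finset.card_le_card e1).trans (Finset.card_union_le _ _)
    have e3 : (cnb G w \ cnb G u).card ≤ 8 * h := hw'
    omega
  · have hw' : dd G u w ≤ 8 * h := (Finset.mem_filter.1 hw).2
    have e0 : (KK G h u \ cnb G u).card * (D + 1 - 8 * h) ≤ npr G u :=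
      Cor_count G D u _ (m2 u) (m1 u) (m4 u) (8 * h) fun x hx => by
        obtain ⟨hx1, hx2⟩ := Finset.mem_sdiff.1 hx
        exact ⟨hx2, (Finset.mem_filter.1 hx1).2⟩
    have e4 : (KK G h u \ cnb G u).card ≤ h := by
      by_contra hcon
      have e5 : h * h ≤ (KK G h u \ cnb G u).card * (D + 1 - 8 * h) :=
        Nat.mul_le_mul (by omega) (by omega)
      rw [pow_two] at hnpr
      omega
    have e1 : KK G h u \ cnb G w ⊆ (KK G h u \ cnb G u) ∪ (cnb G u \ cnb G w) := by
      intro x hx
      obtain ⟨hx1, hx2⟩ := Finset.mem_sdiff.1 hx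
      by_cases hxu : x ∈ cnb G u
      · exact Finset.mem_union_right _ (Finset.mem_sdiff.2 ⟨hxu, hx2⟩)
      · exact Finset.mem_union_left _ (Finset.mem_sdiff.2 ⟨hx1, hxu⟩)
    have e2 := (Finset.card_le_card e1).trans (Finset.card_union_le _ _)
    have e3 : (cnb G u \ cnb G w).card ≤ 8 * h := hw'
    omega

end Pool.TN
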