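import Pool.Agent.Helper32.TN.StA

/-!
# T9: the decomposition into almost cliques and sparse vertices (helper42)
-/

set_option autoImplicit false

namespace Pool.TN

open Pool.TC Pool.TCM Finset
open scoped Classical

section

variable {V : Type} [Fintype V]

theorem Dec_self (G : SimpleGraph V) (u : V) : dd G u u = 0 := by
  unfold dd; rw [Finset.sdiff_self]; rfl

theorem Dec_KK {G : SimpleGraph V} {h : ℕ} {u x : V} : x ∈ KK G h u ↔ dd G u x ≤ 8 * h := by
  unfold KK; simp

theorem Dec_cnb {G : SimpleGraph V} {u x : V} : x ∈ cnb G u ↔ x = u ∨ G.Adj u x := by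
  unfold cnb nb; simp

/-- two dense vertices at distance at most `16 h` are at distance at most `2 h` -/
theorem Dec_near (hMet : St_Met) (hCor : St_Cor) (G : SimpleGraph V) (D h : ℕ)
    (hreg : ∀ u, (nb G u).card = D) (h1 : 1 ≤ h) (h36 : 36 * h ≤ D) (u u' : V)
    (hu : npr G u < h ^ 2) (hu' : npr G u' < h ^ 2) (hd : dd G u u' ≤ 16 * h) :
    dd G u u' ≤ 2 * h := by
  obtain ⟨hsym, hint, htri, -⟩ := hMet V G D hreg
  have c1 := (hCor V G D h u hreg h1 h36 hu).1
  have c2 := (hCor V G D h u' hreg h1 h36 hu').1
  have hI := hint u u'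
  have hne : ((cnb G u ∩ cnb G u') \ ((cnb G u).filter (fun x => h < dd G u x) ∪
      (cnb G u').filter (fun x => h < dd G u' x))).Nonempty := by
    rw [← Finset.card_pos]
    have e1 := Finset.le_card_sdiff ((cnb G u).filter (fun x => h < dd G u x) ∪
      (cnb G u').filter (fun x => h < dd G u' x)) (cnb G u ∩ cnb G u')
    have e2 := Finset.card_union_le ((cnb G u).filter (fun x => h < dd G u x))
      ((cnb G u').filter (fun x => h < dd G u' x))
    omega
  obtain ⟨y, hy⟩ := hne
  rw [mem_sdiff, mem_inter, mem_union, mem_filter, mem_filter] at hy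
  obtain ⟨⟨a1, a2⟩, a3⟩ := hy
  push Not at a3
  have b1 := a3.1 a1
  have b2 := a3.2 a2
  have b3 := htri u y u'
  rw [hsym y u'] at b3
  omega

end

theorem thm_Dec (hMet : St_Met) (hCor : St_Cor) : St_Dec := by
  intro V κ _ _ G E D h hreg hcol hadj hcov h1 h36
  obtain ⟨hsym, hint, htri, -⟩ := hMet V G D hreg
  have near := Dec_near hMet hCor G D h hreg h1 h36
  -- maximal set
  let Q : Finset V → Prop := fun R => (∀ u ∈ R, npr G u < h ^ 2) ∧
    ∀ u ∈ R, ∀ u' ∈ R, u ≠ u' → 2 * h < dd G u u'
  obtain ⟨R, hRm, hRmax⟩ := Finset.exists_max_image ((univ : Finset (Finset V)).filter Q)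
    Finset.card ⟨∅, by rw [mem_filter]; exact ⟨mem_univ _, by simp [Q]⟩⟩
  have hRQ : Q R := (mem_filter.1 hRm).2
  have hcovR : ∀ u, npr G u < h ^ 2 → ∃ u' ∈ R, dd G u' u ≤ 8 * h := by
    intro u hu
    by_contra hcon
    push Not at hcon
    have huR : u ∉ R := by
      intro h3
      have := hcon u h3
      rw [Dec_self] at this
      omega
    have hQ : Q (insert u R) := by
      refine ⟨?_, ?_⟩
      · intro v hv
        rcases mem_insert.1 hv with h3 | h3
        · rw [h3]; exact hu
        · exact hRQ.1 v h3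
      · intro v hv v' hv' hne
        rcases mem_insert.1 hv with h3 | h3
        · rcases mem_insert.1 hv' with h4 | h4
          · exact absurd (h3.trans h4.symm) hne
          · rw [h3, hsym]
            have := hcon v' h4
            omega
        · rcases mem_insert.1 hv' with h4 | h4
          · rw [h4]
            have := hcon v h3
            omega
          · exact hRQ.2 v h3 v' h4 hne
    have := hRmax (insert u R) (mem_filter.2 ⟨mem_univ _, hQ⟩)
    rw [card_insert_of_notMem huR] at this
    omega
  have huniq : ∀ x, ∀ u ∈ R, ∀ u' ∈ R, x ∈ KK G h u → x ∈ KK G h u' → u = u' := by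
    intro x u hu u' hu' hx hx'
    by_contra hne
    rw [Dec_KK] at hx hx'
    have a := htri u x u'
    rw [hsym x u'] at a
    have b := near u u' (hRQ.1 u hu) (hRQ.1 u' hu') (by omega)
    have c := hRQ.2 u hu u' hu' hne
    omega
  let K : V → Option V := fun v => if hx : ∃ u, u ∈ R ∧ v ∈ KK G h u then some hx.choose else none
  have hK1 : ∀ v u, u ∈ R → v ∈ KK G h u → K v = some u := by
    intro v u hu hv
    have hx : ∃ u, u ∈ R ∧ v ∈ KK G h u := ⟨u, hu, hv⟩
    have e : K v = some hx.choose := dif_pos hx
    rw [e]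
    exact congrArg some (huniq v _ hx.choose_spec.1 u hu hx.choose_spec.2 hv)
  have hK2 : ∀ v u, K v = some u → u ∈ R ∧ v ∈ KK G h u := by
    intro v u hv
    by_cases hx : ∃ u, u ∈ R ∧ v ∈ KK G h u
    · have e : K v = some hx.choose := dif_pos hx
      rw [e] at hv
      have : hx.choose = u := Option.some.inj hv
      rw [← this]
      exact hx.choose_spec
    · have e : K v = none := dif_neg hx
      rw [e] at hv
      cases hv
  refine ⟨K, ⟨hreg, hcol, hadj, hcov, ?_, ?_, ?_⟩, ?_⟩
  · -- inj
    intro u a b hab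
    by_cases hau : E.N a u = u
    · -- both missing
      have hbu : E.N b u = u := hab ▸ hau
      have hA : ((univ : Finset κ).filter (fun c => E.N c u ≠ u)).card = D := by
        rw [← hreg u]
        apply Finset.card_bij (fun c _ => E.N c u)
        · intro c hc
          rw [mem_filter] at hc
          unfold nb
          rw [mem_filter]
          exact ⟨mem_univ _, hadj c u hc.2⟩
        · intro c hc d hd hcd
          rw [mem_filter] at hc
          exact E.uniq c d u hcd hc.2
        · intro v hv
          unfold nb at hv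
          rw [mem_filter] at hv
          obtain ⟨c, hc⟩ := hcov u v hv.2
          exact ⟨c, mem_filter.2 ⟨mem_univ _, by rw [hc]; exact hv.2.ne'⟩, hc⟩
      have hB := Finset.card_filter_add_card_filter_not (s := (univ : Finset κ))
        (fun c => E.N c u ≠ u)
      rw [hA, Finset.card_univ, hcol] at hB
      have hC : ((univ : Finset κ).filter (fun c => ¬ E.N c u ≠ u)).card ≤ 1 := by omega
      exact Finset.card_le_one.1 hC a (mem_filter.2 ⟨mem_univ _, not_not.2 hau⟩) b
        (mem_filter.2 ⟨mem_univ _, not_not.2 hbu⟩)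
    · exact E.uniq a b u hab hau
  · -- out
    intro w hw
    obtain ⟨u, hu⟩ := Option.ne_none_iff_exists'.1 hw
    obtain ⟨huR, hwK⟩ := hK2 w u hu
    have c2 := (hCor V G D h u hreg h1 h36 (hRQ.1 u huR)).2.1 w hwK
    have : oo G K w ≤ (cnb G w \ KK G h u).card := by
      unfold oo
      apply card_le_card
      intro v hv
      rw [mem_filter] at hv
      rw [mem_sdiff]
      refine ⟨?_, ?_⟩
      · rw [Dec_cnb]
        right
        have := hv.1
        unfold nb at this
        exact (mem_filter.1 this).2
      · intro hvK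
        exact hv.2 ((hK1 v u huR hvK).trans hu.symm)
    omega
  · -- non
    intro w i hwi
    obtain ⟨hiR, hwK⟩ := hK2 w i hwi
    have c3 := (hCor V G D h i hreg h1 h36 (hRQ.1 i hiR)).2.2 w hwK
    refine le_trans (card_le_card ?_) c3
    intro v hv
    rw [mem_filter] at hv
    rw [mem_sdiff]
    refine ⟨(hK2 v i hv.2.1).2, ?_⟩
    rw [Dec_cnb]
    rintro (h3 | h3)
    · exact hv.2.2.1 h3
    · exact hv.2.2.2 h3
  · -- sparse
    intro u hu
    by_contra hcon
    obtain ⟨u', hu', hd⟩ := hcovR u (not_le.1 hcon)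
    rw [hK1 u u' hu' (Dec_KK.2 hd)] at hu
    cases hu

end Pool.TN
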