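import Pool.Agent.Helper32.TN.StA

/-!
# T9, block 1: colouring of a degenerate conflict relation
-/

set_option autoImplicit false

namespace Pool.TN

open Pool.TC Pool.TCM Finset
open scoped Classical

private theorem deg_aux {V : Type} [Fintype V] (cf : V → V → Prop) (r : ℕ)
    (hs : ∀ u w, cf u w → cf w u)
    (hd : ∀ W : Finset V, W.Nonempty →
      ∃ u ∈ W, (W.filter (fun w => w ≠ u ∧ cf u w)).card ≤ r) :
    ∀ (n : ℕ) (W : Finset V), W.card = n →
      ∃ g : V → Fin (r + 1), ∀ u ∈ W, ∀ w ∈ W, u ≠ w → cf u w → g u ≠ g w := by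
  intro n
  induction n with
  | zero =>
    intro W hW
    refine ⟨fun _ => 0, fun u hu => ?_⟩
    rw [Finset.card_eq_zero] at hW
    rw [hW] at hu
    exact absurd hu (Finset.notMem_empty u)
  | succ n ih =>
    intro W hW
    have hne : W.Nonempty := by
      rw [← Finset.card_pos]; omega
    obtain ⟨u, hu, hc⟩ := hd W hne
    have hce : (W.erase u).card = n := by
      rw [Finset.card_erase_of_mem hu]; omega
    obtain ⟨g, hg⟩ := ih (W.erase u) hce
    have hex : ∃ x : Fin (r + 1), x ∉ (W.filter (fun w => w ≠ u ∧ cf u w)).image g := by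
      by_contra hcon
      push Not at hcon
      have h1 : (univ : Finset (Fin (r + 1))).card ≤
          ((W.filter (fun w => w ≠ u ∧ cf u w)).image g).card :=
        Finset.card_le_card (fun x _ => hcon x)
      rw [Finset.card_univ, Fintype.card_fin] at h1
      have h2 := Finset.card_image_le (s := W.filter (fun w => w ≠ u ∧ cf u w)) (f := g)
      omega
    obtain ⟨x, hx⟩ := hex
    have hx' : ∀ w ∈ W, w ≠ u → cf u w → g w ≠ x := by
      intro w hw hwu hcw he
      apply hx
      rw [Finset.mem_image]
      exact ⟨w, Finset.mem_filter.2 ⟨hw, hwu, hcw⟩, he⟩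
    refine ⟨Function.update g u x, ?_⟩
    intro a ha b hb hab hcf
    by_cases hau : a = u
    · subst hau
      rw [Function.update_self, Function.update_of_ne (Ne.symm hab)]
      exact (hx' b hb (Ne.symm hab) hcf).symm
    · by_cases hbu : b = u
      · subst hbu
        rw [Function.update_self, Function.update_of_ne hau]
        exact hx' a ha hau (hs _ _ hcf)
      · rw [Function.update_of_ne hau, Function.update_of_ne hbu]
        exact hg a (Finset.mem_erase.2 ⟨hau, ha⟩) b (Finset.mem_erase.2 ⟨hbu, hb⟩) hab hcf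

theorem thm_Deg : St_Deg := by
  intro V _ cf r hs hd
  obtain ⟨g, hg⟩ := deg_aux cf r hs hd _ univ rfl
  exact ⟨g, fun u w huw hc => hg u (Finset.mem_univ u) w (Finset.mem_univ w) huw hc⟩

end Pool.TN
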