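import Pool.Agent.Helper32.TN.StA

/-!
# [End] the final recolouring
-/

set_option autoImplicit false

namespace Pool.TN

open Pool.TC Pool.TCM Finset
open scoped Classical

theorem thm_End (hF : St_Fun) : St_End := by
  intro V κ _ _ G E c r hadj hcov hr hprp hld
  obtain ⟨p, hp⟩ : ∃ p : V → V, p = fun u => E.N (c u) u := ⟨_, rfl⟩
  have hpu : ∀ u, p u = E.N (c u) u := fun u => by rw [hp]
  have hfib : ∀ v, (univ.filter (fun u => p u = v ∧ u ≠ v)).card ≤ r := by
    intro v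
    have h := hld v
    unfold ld at h
    refine le_trans (Finset.card_le_card ?_) h
    intro u hu
    simp only [Finset.mem_filter, Finset.mem_univ, true_and] at hu ⊢
    rw [← hpu]
    exact hu.1
  obtain ⟨g, hg1, hg2⟩ := hF V p r hr hfib
  let e : Sym2 V → κ ⊕ Fin (r + 1) := fun s =>
    if h : ∃ x, s = s(x, p x) ∧ p x ≠ x then Sum.inr (g h.choose) else
      if h : ∃ a, ∃ u, s = s(u, E.N a u) then Sum.inl h.choose else Sum.inr 0
  have K0 : ∀ u v, G.Adj u v → ∃ a, ∃ x, s(u, v) = s(x, E.N a x) := by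
    intro u v huv
    obtain ⟨a, ha⟩ := hcov u v huv
    exact ⟨a, u, by rw [ha]⟩
  have K1 : ∀ u v i, G.Adj u v → e s(u, v) = Sum.inr i →
      (p u = v ∧ p u ≠ u ∧ g u = i) ∨ (p v = u ∧ p v ≠ v ∧ g v = i) := by
    intro u v i huv h
    by_cases h1 : ∃ x, s(u, v) = s(x, p x) ∧ p x ≠ x
    · have h2 : e s(u, v) = Sum.inr (g h1.choose) := dif_pos h1
      rw [h2] at h
      have h3 := Sum.inr.inj h
      obtain ⟨h4, h5⟩ := h1.choose_spec
      rw [Sym2.eq_iff] at h4
      rcases h4 with ⟨h4, h6⟩ | ⟨h4, h6⟩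
      · refine Or.inl ⟨?_, ?_, ?_⟩
        · rw [h4]; exact h6.symm
        · rw [h4]; exact h5
        · rw [h4]; exact h3
      · refine Or.inr ⟨?_, ?_, ?_⟩
        · rw [h6]; exact h4.symm
        · rw [h6]; exact h5
        · rw [h6]; exact h3
    · have h2 := K0 u v huv
      have h3 : e s(u, v) = Sum.inl h2.choose := (dif_neg h1).trans (dif_pos h2)
      rw [h3] at h
      cases h
  have K2 : ∀ u v a, G.Adj u v → e s(u, v) = Sum.inl a →
      E.N a u = v ∧ ¬ ∃ x, s(u, v) = s(x, p x) ∧ p x ≠ x := by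
    intro u v a huv h
    by_cases h1 : ∃ x, s(u, v) = s(x, p x) ∧ p x ≠ x
    · have h2 : e s(u, v) = Sum.inr (g h1.choose) := dif_pos h1
      rw [h2] at h
      cases h
    · refine ⟨?_, h1⟩
      have h2 := K0 u v huv
      have h3 : e s(u, v) = Sum.inl h2.choose := (dif_neg h1).trans (dif_pos h2)
      rw [h3] at h
      have h4 := Sum.inl.inj h
      obtain ⟨x, hx⟩ := h2.choose_spec
      rw [h4, Sym2.eq_iff] at hx
      rcases hx with ⟨h5, h6⟩ | ⟨h5, h6⟩
      · rw [h5]; exact h6.symm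
      · rw [h5, h6, E.inv]
  refine ⟨e, ?_, ?_⟩
  · intro u v w huv huw hvw h
    rcases h1 : e s(u, v) with a | i
    · rw [h1] at h
      exact hvw ((K2 u v a huv h1).1.symm.trans (K2 u w a huw h.symm).1)
    · rw [h1] at h
      rcases K1 u v i huv h1 with ⟨a1, a2, a3⟩ | ⟨a1, a2, a3⟩ <;>
        rcases K1 u w i huw h.symm with ⟨b1, b2, b3⟩ | ⟨b1, b2, b3⟩
      · exact hvw (a1.symm.trans b1)
      · refine hg2 w b2 ?_ ?_
        · rw [b1]; exact a2
        · rw [b1, a3, b3]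
      · refine hg2 v a2 ?_ ?_
        · rw [a1]; exact b2
        · rw [a1, a3, b3]
      · exact hg1 v w hvw a2 b2 (a1.trans b1.symm) (a3.trans b3.symm)
  · intro u v huv h
    obtain ⟨h1, h2⟩ := K2 u v (c u) huv h
    rw [← hpu] at h1
    exact h2 ⟨u, by rw [h1], by rw [h1]; exact huv.ne'⟩

end Pool.TN
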