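import Pool.Agent.Helper32.TN.StA

/-!
# [Fun] colouring of the conflicts of a function
-/

set_option autoImplicit false

namespace Pool.TN

open Pool.TC Pool.TCM Finset
open scoped Classical

theorem thm_Fun (hD : St_Deg) : St_Fun := by
  intro V _ p r hr hfib
  obtain ⟨cf, hcf⟩ : ∃ cf : V → V → Prop, cf = fun u w =>
      p u ≠ u ∧ p w ≠ w ∧ (p u = p w ∨ p u = w ∨ p w = u) := ⟨_, rfl⟩
  have hcf' : ∀ u w, cf u w ↔ p u ≠ u ∧ p w ≠ w ∧ (p u = p w ∨ p u = w ∨ p w = u) := by
    intro u w
    rw [hcf]
  have hsym : ∀ u w, cf u w → cf w u := by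
    intro u w h
    rw [hcf'] at h ⊢
    obtain ⟨h1, h2, h3⟩ := h
    refine ⟨h2, h1, ?_⟩
    rcases h3 with h3 | h3 | h3
    · exact Or.inl h3.symm
    · exact Or.inr (Or.inr h3)
    · exact Or.inr (Or.inl h3)
  have hdeg : ∀ W : Finset V, W.Nonempty →
      ∃ u ∈ W, (W.filter (fun w => w ≠ u ∧ cf u w)).card ≤ r := by
    intro W hW
    by_cases h0 : ∃ u ∈ W, p u = u
    · obtain ⟨u, hu, hpu⟩ := h0
      refine ⟨u, hu, ?_⟩
      rw [Finset.card_eq_zero.2]
      · exact Nat.zero_le _
      · rw [Finset.filter_eq_empty_iff]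
        rintro w - ⟨-, h⟩
        rw [hcf'] at h
        exact h.1 hpu
    · have h0' : ∀ u ∈ W, p u ≠ u := fun u hu h => h0 ⟨u, hu, h⟩
      by_cases h1 : ∃ u ∈ W, ∀ w ∈ W, p w ≠ u
      · obtain ⟨u, hu, hnu⟩ := h1
        refine ⟨u, hu, ?_⟩
        have hsub : W.filter (fun w => w ≠ u ∧ cf u w) ⊆
            insert (p u) ((univ.filter (fun w => p w = p u ∧ w ≠ p u)).erase u) := by
          intro w hw
          rw [Finset.mem_filter] at hw
          obtain ⟨hwW, hwu, hc⟩ := hw
          rw [hcf'] at hc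
          obtain ⟨-, h2, h3⟩ := hc
          rcases h3 with h3 | h3 | h3
          · refine Finset.mem_insert_of_mem (Finset.mem_erase.2 ⟨hwu, ?_⟩)
            rw [Finset.mem_filter]
            exact ⟨Finset.mem_univ _, h3.symm, fun h => h2 (by rw [← h3]; exact h.symm)⟩
          · rw [← h3]
            exact Finset.mem_insert_self _ _
          · exact absurd h3 (hnu w hwW)
        have hmem : u ∈ univ.filter (fun w => p w = p u ∧ w ≠ p u) := by
          rw [Finset.mem_filter]
          exact ⟨Finset.mem_univ _, rfl, (h0' u hu).symm⟩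
        have hc1 := Finset.card_le_card hsub
        have hc2 := Finset.card_insert_le (p u)
          ((univ.filter (fun w => p w = p u ∧ w ≠ p u)).erase u)
        have hc3 := Finset.card_erase_of_mem hmem
        have hc4 : 0 < (univ.filter (fun w => p w = p u ∧ w ≠ p u)).card :=
          Finset.card_pos.2 ⟨u, hmem⟩
        have hc5 := hfib (p u)
        omega
      · have h1' : ∀ u ∈ W, ∃ w ∈ W, p w = u := by
          intro u hu
          by_contra h
          exact h1 ⟨u, hu, fun w hw h2 => h ⟨w, hw, h2⟩⟩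
        have hsub : W ⊆ W.image p := by
          intro u hu
          obtain ⟨w, hw, h⟩ := h1' u hu
          exact Finset.mem_image.2 ⟨w, hw, h⟩
        have hinj : Set.InjOn p W := by
          rw [← Finset.card_image_iff]
          exact le_antisymm Finset.card_image_le (Finset.card_le_card hsub)
        obtain ⟨u, hu⟩ := hW
        refine ⟨u, hu, ?_⟩
        obtain ⟨w0, hw0, hpw0⟩ := h1' u hu
        have hsub2 : W.filter (fun w => w ≠ u ∧ cf u w) ⊆ {p u, w0} := by
          intro w hw
          rw [Finset.mem_filter] at hw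
          obtain ⟨hwW, hwu, hc⟩ := hw
          rw [hcf'] at hc
          obtain ⟨-, -, h3⟩ := hc
          rw [Finset.mem_insert, Finset.mem_singleton]
          rcases h3 with h3 | h3 | h3
          · exact absurd (hinj hwW hu h3.symm) hwu
          · exact Or.inl h3.symm
          · exact Or.inr (hinj hwW hw0 (h3.trans hpw0.symm))
        exact (Finset.card_le_card hsub2).trans (Finset.card_le_two.trans hr)
  obtain ⟨g, hg⟩ := hD V cf r hsym hdeg
  refine ⟨g, fun u w huw h1 h2 h3 => hg u w huw ((hcf' u w).2 ⟨h1, h2, Or.inl h3⟩),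
    fun u h1 h2 => hg u (p u) h1.symm ((hcf' u (p u)).2 ⟨h1, h2, Or.inr (Or.inl rfl)⟩)⟩

end Pool.TN
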